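import Mathlib

/-!
# More unknowns than equations: a second common zero
-/

namespace Pool.Agent.UQ

open MvPolynomial

universe u v

/-- translation -/
noncomputable def trans {K : Type u} [Field K] {ι : Type v} (a : ι → K) :
    MvPolynomial ι K ≃+* MvPolynomial ι K where
  toFun := aeval (fun i => X i + C (a i))
  invFun := aeval (fun i => X i - C (a i))
  left_inv p := by
    have : (aeval (fun i => (X i - C (a i) : MvPolynomial ι K))).comp
        (aeval (fun i => (X i + C (a i) : MvPolynomial ι K))) = AlgHom.id K _ := by
      ext i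
      simp [algebraMap_eq]
    exact DFunLike.congr_fun this p
  right_inv p := by
    have : (aeval (fun i => (X i + C (a i) : MvPolynomial ι K))).comp
        (aeval (fun i => (X i - C (a i) : MvPolynomial ι K))) = AlgHom.id K _ := by
      ext i
      simp [algebraMap_eq]
    exact DFunLike.congr_fun this p
  map_mul' := map_mul _
  map_add' := map_add _

lemma trans_apply {K : Type u} [Field K] {ι : Type v} (a : ι → K) (p : MvPolynomial ι K) :
    trans a p = aeval (fun i => X i + C (a i)) p := rfl

lemma height_zero {K : Type u} [Field K] [IsAlgClosed K] {ι : Type v} [Finite ι] :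
    (vanishingIdeal K {(0 : ι → K)} : Ideal (MvPolynomial ι K)).height = Nat.card ι := by
  have hfin : FiniteRingKrullDim (MvPolynomial ι K) := by
    rw [finiteRingKrullDim_iff_ne_bot_and_top]
    have h := MvPolynomial.ringKrullDim_of_isNoetherianRing (R := K) (ι := ι)
    rw [h, ringKrullDim_eq_zero_of_field]
    constructor
    · simp
    · rw [zero_add]
      exact (WithBot.coe_lt_coe.2 (ENat.coe_lt_top _)).ne
  obtain ⟨p, hp, hh⟩ := Ideal.exists_isMaximal_height (R := MvPolynomial ι K)
  obtain ⟨a, rfl⟩ := isMaximal_iff_eq_vanishingIdeal_singleton.1 hp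
  rw [MvPolynomial.ringKrullDim_of_isNoetherianRing, ringKrullDim_eq_zero_of_field] at hh
  have e := RingEquiv.height_comap (trans a) (vanishingIdeal K {(0 : ι → K)})
  have h2 : (vanishingIdeal K {(0 : ι → K)}).comap (trans a) = vanishingIdeal K {a} := by
    ext q
    rw [Ideal.mem_comap, mem_vanishingIdeal_singleton_iff, mem_vanishingIdeal_singleton_iff]
    have : (aeval (0 : ι → K)).comp (aeval (fun i => (X i + C (a i) : MvPolynomial ι K))) =
        aeval a := by
      ext i
      simp
    have h3 := DFunLike.congr_fun this q
    rw [← h3]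
    rfl
  rw [← e, h2]
  rw [zero_add] at hh
  exact_mod_cast hh

/-- More unknowns than equations without constant term: there is a nonzero solution. -/
lemma exists_ne_zero {K : Type u} [Field K] [IsAlgClosed K] {ι : Type v} [Fintype ι]
    (s : Finset (MvPolynomial ι K)) (hs : s.card < Fintype.card ι)
    (h0 : ∀ p ∈ s, constantCoeff p = 0) :
    ∃ y : ι → K, y ≠ 0 ∧ ∀ p ∈ s, aeval y p = 0 := by
  classical
  by_contra hcon
  push Not at hcon
  have hz : zeroLocus K (Ideal.span (s : Set (MvPolynomial ι K))) = {(0 : ι → K)} := by
    rw [zeroLocus_span]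
    ext y
    simp only [Set.mem_setOf_eq, Set.mem_singleton_iff]
    constructor
    · intro h
      by_contra hy
      obtain ⟨p, hp, hp'⟩ := hcon y hy
      exact hp' (h p hp)
    · rintro rfl p hp
      rw [aeval_zero, h0 p hp, map_zero]
  have hr := vanishingIdeal_zeroLocus_eq_radical (K := K)
    (Ideal.span (s : Set (MvPolynomial ι K)))
  rw [hz] at hr
  have hmin : vanishingIdeal K {(0 : ι → K)} ∈
      (Ideal.span (s : Set (MvPolynomial ι K))).minimalPrimes := by
    rw [← Ideal.radical_minimalPrimes, ← hr]
    have : (vanishingIdeal K {(0 : ι → K)} : Ideal (MvPolynomial ι K)).IsPrime := inferInstance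
    rw [Ideal.minimalPrimes_eq_subsingleton_self]
    rfl
  have h1 := Ideal.height_le_card_of_mem_minimalPrimes_span_finset hmin
  rw [height_zero] at h1
  have h2 : Nat.card ι ≤ s.card := by exact_mod_cast h1
  rw [Nat.card_eq_fintype_card] at h2
  omega

end Pool.Agent.UQ
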