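import Pool.Agent.UQ.Arc

/-!
# Arcs on double covers: the borderline case
-/

namespace Pool.Agent.UQ

open Polynomial

universe u v

variable {k : Type u} {K : Type v} [Field k] [Field K] [Algebra k K] [IsAlgClosed K] {m : ℕ}

/-- `1 + a τ + b τ^2` -/
noncomputable def quad {R : Type*} [CommRing R] (a b : R) : R[X] := 1 + C a * X + C b * X ^ 2

lemma quad_natDegree {R : Type*} [CommRing R] (a b : R) : (quad a b).natDegree ≤ 2 := by
  unfold quad
  compute_degree

lemma quad_eval {R : Type*} [CommRing R] (a b : R) : (quad a b).eval 0 = 1 := by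
  unfold quad
  simp

lemma quad_map {R S : Type*} [CommRing R] [CommRing S] (f : R →+* S) (a b : R) :
    (quad a b).map f = quad (f a) (f b) := by
  unfold quad
  simp

lemma quad_coeff {R : Type*} [CommRing R] (a b : R) :
    (quad a b).coeff 1 = a ∧ (quad a b).coeff 2 = b := by
  unfold quad
  constructor <;> simp [coeff_one, coeff_X]

theorem arc_square (H : MvPolynomial (Fin m) k) (i₀ : Fin m) (hi : i₀ ∉ H.vars) (w : Fin m → ℕ)
    (hw0 : 0 < w i₀) (hdeg : MvPolynomial.weightedTotalDegree w H ≤ 2 * w i₀)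
    (hsum : 2 * w i₀ ≤ ∑ i, w i) (ξ : Fin m → K)
    (hξ : ξ i₀ ^ 2 = MvPolynomial.aeval ξ H) (hne : ξ i₀ ≠ 0) :
    ∃ (𝒳 : Fin m → K[X]) (a b : K), (∀ i, (𝒳 i).eval 0 = ξ i) ∧
      𝒳 i₀ ^ 2 * quad a b = MvPolynomial.aeval 𝒳 H ∧
      ∃ i, i ≠ i₀ ∧ (𝒳 i).natDegree ≠ 0 := by
  classical
  let n : Fin m → ℕ := fun i => if i = i₀ then w i₀ - 1 else w i
  have hn0 : n i₀ = w i₀ - 1 := by simp [n]
  have hn : ∀ i, n i ≤ w i := by
    intro i
    by_cases h : i = i₀
    · subst h
      omega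
    · simp [n, h]
  have hsumn : ∑ i, w i = (∑ i, n i) + 1 := by
    have h1 : ∀ i, w i = n i + if i = i₀ then 1 else 0 := by
      intro i
      by_cases h : i = i₀
      · subst h
        simp only [n, if_true]
        omega
      · simp [n, h]
    rw [Finset.sum_congr rfl (fun i _ => h1 i), Finset.sum_add_distrib]
    simp
  let ι := (Σ i : Fin m, Fin (n i)) ⊕ Fin 2
  let R := MvPolynomial ι K
  let 𝒴 : Fin m → R[X] := fun i => ser (MvPolynomial.C (ξ i))
    (fun j => MvPolynomial.X (Sum.inl ⟨i, j⟩))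
  let r : R[X] := quad (MvPolynomial.X (Sum.inr 0)) (MvPolynomial.X (Sum.inr 1))
  have hcard : Fintype.card ι = (∑ i, n i) + 2 := by
    simp [ι, Fintype.card_sigma]
  have halg : ∀ a : k, algebraMap k R a = MvPolynomial.C (algebraMap k K a) := fun a => rfl
  have hRaev : MvPolynomial.aeval (fun i => (MvPolynomial.C (ξ i) : R)) H =
      MvPolynomial.C (ξ i₀ ^ 2) := by
    rw [hξ]
    exact MvPolynomial.aeval_algebraMap_apply (R := k) (A := K) R ξ H
  have hKaev : MvPolynomial.aeval (fun i => (C (ξ i) : K[X])) H = C (ξ i₀ ^ 2) := by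
    rw [hξ]
    exact MvPolynomial.aeval_algebraMap_apply (R := k) (A := K) K[X] ξ H
  obtain ⟨y, hy, hy'⟩ := exists_map_eq_zero (K := K) (ι := ι)
    (𝒴 i₀ ^ 2 * r - MvPolynomial.aeval 𝒴 H)
    (by
      rw [hcard]
      have h1 : (𝒴 i₀ ^ 2 * r).natDegree ≤ 2 * w i₀ := by
        refine natDegree_mul_le.trans ?_
        have h2 : (𝒴 i₀ ^ 2).natDegree ≤ 2 * (w i₀ - 1) :=
          natDegree_pow_le.trans (Nat.mul_le_mul_left 2 ((ser_natDegree _ _).trans hn0.le))
        have h3 : r.natDegree ≤ 2 := quad_natDegree _ _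
        omega
      have h2 : (MvPolynomial.aeval 𝒴 H).natDegree ≤ 2 * w i₀ :=
        (natDegree_aeval_le H w 𝒴 (fun i => (ser_natDegree _ _).trans (hn i))).trans hdeg
      have h3 := natDegree_sub_le (𝒴 i₀ ^ 2 * r) (MvPolynomial.aeval 𝒴 H)
      have h4 := max_le h1 h2
      omega)
    (by
      rw [coeff_zero_eq_eval_zero, eval_sub, eval_mul, eval_pow, eval_aeval_mv]
      simp only [𝒴, r, ser_eval, quad_eval]
      rw [hRaev]
      simp)
    (by
      rw [Polynomial.map_sub, Polynomial.map_mul, Polynomial.map_pow,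
        map_aeval_mv (k := k) (MvPolynomial.constantCoeff : MvPolynomial ι K →+* K)
        (fun a => by
          have h : algebraMap k (MvPolynomial ι K) a = MvPolynomial.C (algebraMap k K a) := rfl
          rw [h, MvPolynomial.constantCoeff_C]) H 𝒴]
      simp only [𝒴, r, ser_map, quad_map, MvPolynomial.constantCoeff_C,
        MvPolynomial.constantCoeff_X, ser_zero]
      rw [hKaev]
      unfold quad
      simp)
  have hC : ∀ c : K, (MvPolynomial.aeval y : MvPolynomial ι K →ₐ[K] K).toRingHom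
      (MvPolynomial.C c) = c := fun c => (MvPolynomial.aeval_C y c).trans rfl
  have hX : ∀ i, (MvPolynomial.aeval y : MvPolynomial ι K →ₐ[K] K).toRingHom
      (MvPolynomial.X i) = y i := fun i => MvPolynomial.aeval_X y i
  rw [Polynomial.map_sub, Polynomial.map_mul, Polynomial.map_pow,
    map_aeval_mv (k := k) (MvPolynomial.aeval y : MvPolynomial ι K →ₐ[K] K).toRingHom
    (fun a => by
      rw [halg]
      exact hC _) H 𝒴] at hy'
  simp only [𝒴, r, ser_map, quad_map, hC, hX] at hy'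
  refine ⟨fun i => ser (ξ i) (fun j => y (Sum.inl ⟨i, j⟩)), y (Sum.inr 0), y (Sum.inr 1),
    fun i => ser_eval _ _, sub_eq_zero.1 hy', ?_⟩
  by_contra hcon
  push Not at hcon
  apply hy
  have h1 : ∀ i, i ≠ i₀ → ser (ξ i) (fun j => y (Sum.inl ⟨i, j⟩)) = C (ξ i) := by
    intro i hi
    rw [eq_C_of_natDegree_eq_zero (hcon i hi), coeff_zero_eq_eval_zero, ser_eval]
  rw [sub_eq_zero, aeval_congr_vars H i₀ hi _ _ h1, hKaev] at hy'
  have h2 : (ser (ξ i₀) (fun j => y (Sum.inl ⟨i₀, j⟩)) ^ 2 * quad (y (Sum.inr 0))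
      (y (Sum.inr 1))).natDegree = 0 := by
    rw [hy']
    simp
  have hne2 : C (ξ i₀ ^ 2) ≠ 0 := by
    rw [Ne, C_eq_zero]
    exact pow_ne_zero 2 hne
  rw [← hy'] at hne2
  have hne3 := left_ne_zero_of_mul hne2
  have hne4 := right_ne_zero_of_mul hne2
  rw [natDegree_mul hne3 hne4, natDegree_pow] at h2
  have h5 : (ser (ξ i₀) (fun j => y (Sum.inl ⟨i₀, j⟩))).natDegree = 0 := by omega
  have h6 : (quad (y (Sum.inr 0)) (y (Sum.inr 1))).natDegree = 0 := by omega
  ext i
  rcases i with ⟨i, j⟩ | i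
  · by_cases h : i = i₀
    · subst h
      exact ser_natDegree_eq_zero _ _ h5 j
    · exact ser_natDegree_eq_zero _ _ (hcon i h) j
  · have h7 := quad_coeff (y (Sum.inr 0)) (y (Sum.inr 1))
    fin_cases i
    · exact h7.1.symm.trans (coeff_eq_zero_of_natDegree_lt (by omega))
    · exact h7.2.symm.trans (coeff_eq_zero_of_natDegree_lt (by omega))

end Pool.Agent.UQ
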