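import Pool.Agent.UQ.Quot

/-!
# The quotient `(X × D) / G`: the fixed field
-/

namespace Pool.Agent.UQ

open Polynomial

universe u

variable {k K : Type u} [Field k] [Field K] [Algebra k K]

/-- generators of an intermediate field inside itself -/
lemma adjoin_self_eq_top {ι : Type*} (f : ι → K) (L : IntermediateField k K)
    (hL : L = IntermediateField.adjoin k (Set.range f)) (hf : ∀ i, f i ∈ L) :
    IntermediateField.adjoin k (Set.range fun i => (⟨f i, hf i⟩ : L)) = ⊤ := by
  apply IntermediateField.map_injective L.val
  rw [IntermediateField.adjoin_map, ← AlgHom.fieldRange_eq_map, IntermediateField.fieldRange_val]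
  conv_rhs => rw [hL]
  congr 1
  ext a
  simp

section

variable (φ : k[X]) (x y z u v w s : K) (L : IntermediateField k K)
  (hK : IntermediateField.adjoin k {x, y, z, u, v} = ⊤) (hx : x ∈ L) (hy : y ∈ L)
  (hmem : ∀ E : IntermediateField k K, z ∈ E → L ≤ E → u ∈ E ∧ v ∈ E)
  (hφ : 0 < φ.natDegree) (hval : aeval z φ ∈ L)

include hK hx hy hmem in
lemma adjoin_z_top : IntermediateField.adjoin L {z} = ⊤ := by
  rw [eq_top_iff]
  intro a _
  have h1 : (⊤ : IntermediateField k K) ≤ (IntermediateField.adjoin L {z}).restrictScalars k := by
    rw [← hK, IntermediateField.adjoin_le_iff]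
    have hz : z ∈ (IntermediateField.adjoin L {z}).restrictScalars k :=
      IntermediateField.mem_adjoin_simple_self L z
    have hL : L ≤ (IntermediateField.adjoin L {z}).restrictScalars k := by
      intro b hb
      exact (IntermediateField.adjoin L {z}).algebraMap_mem ⟨b, hb⟩
    obtain ⟨hu, hv⟩ := hmem _ hz hL
    rintro b (rfl | rfl | rfl | rfl | rfl)
    · exact hL hx
    · exact hL hy
    · exact hz
    · exact hu
    · exact hv
  exact h1 (IntermediateField.mem_top (x := a))

/-- the polynomial `φ(T) - φ(z)` over `L` -/
noncomputable def relPoly : L[X] := φ.map (algebraMap k L) - C ⟨aeval z φ, hval⟩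

lemma relPoly_natDegree : (relPoly φ z L hval).natDegree = φ.natDegree := by
  unfold relPoly
  rw [natDegree_sub_C, natDegree_map]

lemma relPoly_aeval : aeval z (relPoly φ z L hval) = 0 := by
  unfold relPoly
  rw [map_sub, aeval_map_algebraMap, aeval_C]
  exact sub_self _

include hφ hval in
lemma isAlgebraic_z : IsAlgebraic L z :=
  ⟨relPoly φ z L hval, by
    intro h
    have h1 := relPoly_natDegree φ z L hval
    rw [h, natDegree_zero] at h1
    omega, relPoly_aeval φ z L hval⟩

include hK hx hy hmem hφ hval in
lemma finrank_le : FiniteDimensional L K ∧ Module.finrank L K ≤ φ.natDegree := by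
  have halg := isAlgebraic_z φ z L hφ hval
  have hint := halg.isIntegral
  have htop := adjoin_z_top x y z u v L hK hx hy hmem
  have hfd : FiniteDimensional L (IntermediateField.adjoin L {z}) :=
    IntermediateField.adjoin.finiteDimensional hint
  have h1 : Module.finrank L (IntermediateField.adjoin L {z}) = (minpoly L z).natDegree :=
    IntermediateField.adjoin.finrank hint
  rw [htop] at h1 hfd
  have hfd' : FiniteDimensional L K :=
    LinearEquiv.finiteDimensional (IntermediateField.topEquiv (F := L) (E := K)).toLinearEquiv
  refine ⟨hfd', ?_⟩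
  have h2 : Module.finrank L (⊤ : IntermediateField L K) = Module.finrank L K :=
    IntermediateField.finrank_top'
  rw [← h2, h1, ← relPoly_natDegree φ z L hval]
  refine natDegree_le_of_dvd (minpoly.dvd L z (relPoly_aeval φ z L hval)) ?_
  intro h
  have h1 := relPoly_natDegree φ z L hval
  rw [h, natDegree_zero] at h1
  omega

include hK hx hy hmem hφ hval in
lemma trdeg_L : Algebra.trdeg k L = Algebra.trdeg k K := by
  have h1 := (finrank_le φ x y z u v L hK hx hy hmem hφ hval).1
  have h2 : Algebra.trdeg L K = 0 := trdeg_eq_zero_iff.2 inferInstance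
  have h3 := trdeg_add_eq k L (A := K)
  rw [h2, add_zero] at h3
  exact h3

include hK hx hy hmem hφ hval in
lemma fixed (G : Subgroup (K ≃ₐ[k] K)) (hG : Nat.card G = φ.natDegree)
    (hfix : L ≤ IntermediateField.fixedField G) : IntermediateField.fixedField G = L := by
  obtain ⟨hfd, hle⟩ := finrank_le φ x y z u v L hK hx hy hmem hφ hval
  have hfin : Finite G := Nat.finite_of_card_ne_zero (by omega)
  have : Fintype G := Fintype.ofFinite G
  have h1 : Module.finrank (IntermediateField.fixedField G) K = Fintype.card G :=
    FixedPoints.finrank_eq_card G K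
  rw [← Nat.card_eq_fintype_card, hG] at h1
  symm
  apply IntermediateField.eq_of_le_of_finrank_le' hfix
  rw [h1]
  exact hle

end

end Pool.Agent.UQ
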