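import Pool.Agent.UQ.Embed

/-!
# Homogenization and a criterion for embeddings
-/

namespace Pool.Agent.UQ

open Polynomial

universe u

section Hom

variable {k : Type*} [Field k] {m : ℕ}

/-- homogenization of `G`, evaluated -/
noncomputable def hom2 {A : Type*} [CommRing A] (G : MvPolynomial (Fin m) k) (c : k →+* A)
    (p : Fin m → A) (q : A) : A :=
  ∑ d ∈ G.support, c (G.coeff d) * (∏ i, p i ^ d i) * q ^ (G.totalDegree - ∑ i, d i)

lemma map_hom2 {A B : Type*} [CommRing A] [CommRing B] (f : A →+* B)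
    (G : MvPolynomial (Fin m) k) (c : k →+* A) (p : Fin m → A) (q : A) :
    f (hom2 G c p q) = hom2 G (f.comp c) (fun i => f (p i)) (f q) := by
  unfold hom2
  simp [map_sum, map_mul, map_prod, map_pow]

lemma hom2_eq {A : Type*} [CommRing A] (G : MvPolynomial (Fin m) k) (c : k →+* A)
    (y : Fin m → A) (q : A) :
    hom2 G c (fun i => q * y i) q = q ^ G.totalDegree * MvPolynomial.eval₂ c y G := by
  unfold hom2
  rw [MvPolynomial.eval₂_eq', Finset.mul_sum]
  refine Finset.sum_congr rfl (fun d hd => ?_)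
  have h1 : ∑ i, d i ≤ G.totalDegree := by
    have h := MvPolynomial.le_totalDegree hd
    rwa [Finsupp.sum_fintype _ _ (by simp)] at h
  have h2 : ∏ i, (q * y i) ^ d i = q ^ (∑ i, d i) * ∏ i, y i ^ d i := by
    rw [← Finset.prod_pow_eq_pow_sum, ← Finset.prod_mul_distrib]
    exact Finset.prod_congr rfl (fun i _ => mul_pow _ _ _)
  rw [h2]
  have h3 : q ^ G.totalDegree = q ^ (∑ i, d i) * q ^ (G.totalDegree - ∑ i, d i) := by
    rw [← pow_add]
    congr 1
    omega
  rw [h3]
  ring

end Hom

section Embed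

variable {k : Type*} {L : Type*} {Q : Type*} [Field k] [Field L] [Algebra k L] [Field Q]
  [Algebra k Q] {m : ℕ}

theorem embed_of_ker (ξ : Fin m → L) (hgen : IntermediateField.adjoin k (Set.range ξ) = ⊤)
    (𝒴 : Fin m → Q)
    (hker : ∀ G : MvPolynomial (Fin m) k, MvPolynomial.aeval ξ G = 0 ↔
      MvPolynomial.aeval 𝒴 G = 0) : Nonempty (L →ₐ[k] Q) := by
  classical
  let f : MvPolynomial (Fin m) k →ₐ[k] L := MvPolynomial.aeval ξ
  let B := f.range
  let g : MvPolynomial (Fin m) k →ₐ[k] Q := MvPolynomial.aeval 𝒴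
  have hle : RingHom.ker f.rangeRestrict ≤ RingHom.ker g := by
    intro G hG
    rw [RingHom.mem_ker] at hG ⊢
    have h1 : MvPolynomial.aeval ξ G = 0 := congrArg Subtype.val hG
    exact (hker G).1 h1
  let e := Ideal.quotientKerAlgEquivOfSurjective f.rangeRestrict_surjective
  let g' : B →ₐ[k] Q := (Ideal.Quotient.liftₐ (RingHom.ker f.rangeRestrict) g
    (fun a ha => hle ha)).comp e.symm.toAlgHom
  have hg' : ∀ G, g' (f.rangeRestrict G) = MvPolynomial.aeval 𝒴 G := by
    intro G
    have h1 : e.symm (f.rangeRestrict G) = Ideal.Quotient.mk _ G := by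
      rw [AlgEquiv.symm_apply_eq]
      rfl
    change (Ideal.Quotient.liftₐ (RingHom.ker f.rangeRestrict) g
      (fun a ha => hle ha)) (e.symm (f.rangeRestrict G)) = _
    rw [h1]
    rfl
  have hinj : Function.Injective g' := by
    rw [injective_iff_map_eq_zero]
    intro b hb
    obtain ⟨G, rfl⟩ := f.rangeRestrict_surjective b
    rw [hg'] at hb
    exact Subtype.ext ((hker G).2 hb)
  have hfrac : IsFractionRing B L := by
    refine IsFractionRing.of_field B L (fun z => ?_)
    have hz : z ∈ IntermediateField.adjoin k (Set.range ξ) := by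
      rw [hgen]
      exact IntermediateField.mem_top
    obtain ⟨r, hr, s, hs, rfl⟩ := IntermediateField.mem_adjoin_iff_div.1 hz
    rw [Algebra.adjoin_range_eq_range_aeval] at hr hs
    exact ⟨⟨r, hr⟩, ⟨s, hs⟩, rfl⟩
  exact ⟨IsFractionRing.liftAlgHom (K := L) hinj⟩

end Embed

end Pool.Agent.UQ
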