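import Pool.Agent.UQ.Cut1
import Pool.Agent.UQ.Hom
import Pool.Agent.UQ.Fix

/-!
# Cutting down the parameter space
-/

namespace Pool.Agent.UQ

open Polynomial

universe u

lemma eval₂_map_lift {R M E : Type*} [CommRing R] [CommRing M] [CommRing E] (i : R →+* M)
    (j : M →+* E) (t : E) (p : R[X]) : (p.map i).eval₂ j t = p.eval₂ (j.comp i) t := by
  rw [eval₂_map]

theorem cut {k L M : Type u} [Field k] [Field L] [Field M] [Algebra k L] [Algebra k M] {m : ℕ}
    (ξ : Fin m → L) (hgen : IntermediateField.adjoin k (Set.range ξ) = ⊤)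
    (hfin : Algebra.trdeg k L < Cardinal.aleph0) (hd : Algebra.trdeg k M = Algebra.trdeg k L)
    (hM : (⊤ : IntermediateField k M).FG) (e : L →ₐ[k] RatFunc M) (a : L)
    (ha : Transcendental M (e a)) :
    ∃ (M₂ : Type u) (_ : Field M₂) (_ : Algebra k M₂), (⊤ : IntermediateField k M₂).FG ∧
      Algebra.trdeg k M₂ + 1 = Algebra.trdeg k L ∧ Nonempty (L →ₐ[k] RatFunc M₂) := by
  classical
  let E := RatFunc M
  let algLE : Algebra L (RatFunc M) := e.toRingHom.toAlgebra
  have towE : IsScalarTower k L (RatFunc M) := IsScalarTower.of_algebraMap_eq (fun b =>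
    (e.commutes b).symm)
  obtain ⟨S, hS⟩ := hM
  obtain ⟨u, huS, hu⟩ := exists_trans hfin hd (S : Set M) hS a ha
  -- common denominator
  obtain ⟨⟨q, hq⟩, hqP⟩ := IsLocalization.exist_integer_multiples_of_finite
    (nonZeroDivisors M[X]) (fun n => e (ξ n))
  choose P hP using hqP
  have hq0 : q ≠ 0 := nonZeroDivisors.ne_zero hq
  have hP' : ∀ n, algebraMap M[X] (RatFunc M) (P n) = algebraMap M[X] (RatFunc M) q * e (ξ n) := by
    intro n
    rw [hP n]
    exact Algebra.smul_def _ _
  -- the valuation
  let coefs : Finset M := Finset.univ.biUnion (fun n => (P n).coeffs) ∪ q.coeffs ∪ S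
  have hone := trdeg_one (k := k) (L := L) (M := M) hfin hd
  have halg : Algebra.IsAlgebraic (Algebra.adjoin L {algebraMap M (RatFunc M) u}) (RatFunc M) := by
    have h1 : AlgebraicIndependent L (fun _ : Unit => algebraMap M (RatFunc M) u) :=
      algebraicIndependent_unique_type_iff.2 hu
    have h2 := h1.isTranscendenceBasis_of_lift_trdeg_le_of_finite (by simp [hone])
    have h3 := h2.isAlgebraic
    rwa [Set.range_const] at h3
  obtain ⟨V, hVL, hVS, Φ, hΦ, hΦV⟩ := exists_val (k := k) (algebraMap M (RatFunc M) u) hu halg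
    (coefs.image (algebraMap M (RatFunc M)) ∪
      {RatFunc.X, (algebraMap M[X] (RatFunc M) q)⁻¹} ∪ Finset.univ.image (fun n => e (ξ n)))
  have hVk : ∀ b : k, algebraMap k (RatFunc M) b ∈ V := by
    intro b
    rw [IsScalarTower.algebraMap_apply k L (RatFunc M)]
    exact hVL _
  have hVcoef : ∀ b ∈ coefs, algebraMap M (RatFunc M) b ∈ V := fun b hb => hVS _ (by
    simp only [Finset.mem_union, Finset.mem_image]
    exact Or.inl (Or.inl ⟨b, hb, rfl⟩))
  have hVX : (RatFunc.X : RatFunc M) ∈ V := hVS _ (by simp)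
  have hVq : (algebraMap M[X] (RatFunc M) q)⁻¹ ∈ V := hVS _ (by simp)
  -- the residue field
  let κ := IsLocalRing.ResidueField V
  let res : V →+* κ := IsLocalRing.residue V
  let lam : L →+* κ := res.comp ((algebraMap L (RatFunc M)).codRestrict V.toSubring hVL)
  let algkκ : Algebra k κ := (lam.comp (algebraMap k L)).toAlgebra
  -- the ring of coefficients
  let R : Subalgebra k M := Algebra.adjoin k (coefs : Set M)
  have hVR : ∀ b : R, algebraMap M (RatFunc M) b ∈ V := by
    rintro ⟨b, hb⟩
    change algebraMap M (RatFunc M) b ∈ V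
    induction hb using Algebra.adjoin_induction with
    | mem x hx => exact hVcoef x hx
    | algebraMap r =>
      rw [← IsScalarTower.algebraMap_apply k M (RatFunc M)]
      exact hVk r
    | add x y _ _ hx hy =>
      rw [map_add]
      exact add_mem hx hy
    | mul x y _ _ hx hy =>
      rw [map_mul]
      exact mul_mem hx hy
  let θ₀ : R →+* V := ((algebraMap M (RatFunc M)).comp (R.val : R →+* M)).codRestrict
    V.toSubring hVR
  let θ : R →ₐ[k] κ :=
    { res.comp θ₀ with
      commutes' := fun b => by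
        change res (θ₀ (algebraMap k R b)) = res _
        congr 1
        apply Subtype.ext
        change algebraMap M (RatFunc M) (algebraMap k M b) =
          algebraMap L (RatFunc M) (algebraMap k L b)
        rw [← IsScalarTower.algebraMap_apply k L (RatFunc M),
          ← IsScalarTower.algebraMap_apply k M (RatFunc M)] }
  have hθ : ∀ b, θ b = res (θ₀ b) := fun b => rfl
  -- lifts of the polynomials to `R`
  have hlift : ∀ p : M[X], (p.coeffs : Set M) ⊆ coefs → ∃ p' : R[X], p'.map (R.val : R →+* M) = p := by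
    intro p hp
    rw [← mem_lifts, lifts_iff_coeff_lifts]
    intro n
    by_cases h : p.coeff n = 0
    · exact ⟨0, by rw [h]; rfl⟩
    · exact ⟨⟨p.coeff n, Algebra.subset_adjoin (hp (coeff_mem_coeffs h))⟩, rfl⟩
  have hPc : ∀ n, ((P n).coeffs : Set M) ⊆ coefs := by
    intro n b hb
    simp only [coefs, Finset.coe_union, Set.mem_union]
    refine Or.inl (Or.inl ?_)
    rw [Finset.mem_coe, Finset.mem_biUnion]
    exact ⟨n, Finset.mem_univ _, hb⟩
  have hqc : (q.coeffs : Set M) ⊆ coefs := by
    intro b hb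
    simp only [coefs, Finset.coe_union, Set.mem_union]
    exact Or.inl (Or.inr hb)
  choose P' hP'' using fun n => hlift (P n) (hPc n)
  obtain ⟨q', hq'⟩ := hlift q hqc
  -- the new field
  let N := IntermediateField.adjoin k (Set.range θ)
  let θ' : R →ₐ[k] N := θ.codRestrict N.toSubalgebra
    (fun b => IntermediateField.subset_adjoin k _ ⟨b, rfl⟩)
  have hθ' : ∀ b, (θ' b : κ) = θ b := fun b => rfl
  let tV : V := ⟨RatFunc.X, hVX⟩
  let t : κ := res tV
  -- evaluation in `V`
  have hev : ∀ p : R[X], ((p.eval₂ θ₀ tV : V) : RatFunc M) =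
      algebraMap M[X] (RatFunc M) (p.map (R.val : R →+* M)) := by
    intro p
    have h1 : ((p.eval₂ θ₀ tV : V) : RatFunc M) =
        p.eval₂ ((algebraMap M (RatFunc M)).comp (R.val : R →+* M)) RatFunc.X := by
      have h2 := Polynomial.hom_eval₂ p θ₀ V.subtype tV
      exact h2
    rw [h1, ← RatFunc.algebraMap_X, ← Polynomial.eval₂_map]
    have h3 : algebraMap M (RatFunc M) = (algebraMap M[X] (RatFunc M)).comp C := by
      ext b
      exact (IsScalarTower.algebraMap_apply M M[X] (RatFunc M) b)
    rw [h3, ← Polynomial.hom_eval₂, Polynomial.eval₂_C_X]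
  have hres : ∀ p : R[X], res (p.eval₂ θ₀ tV) =
      (p.map (θ' : R →+* N)).eval₂ (N.val : N →+* κ) t := by
    intro p
    rw [Polynomial.eval₂_map, Polynomial.hom_eval₂]
    rfl
  let PV : Fin m → V := fun n => (P' n).eval₂ θ₀ tV
  let qV : V := q'.eval₂ θ₀ tV
  let ξV : Fin m → V := fun n => ⟨algebraMap L (RatFunc M) (ξ n), hVL _⟩
  have hPV : ∀ n, PV n = qV * ξV n := by
    intro n
    apply Subtype.ext
    change ((PV n : V) : RatFunc M) = (qV : RatFunc M) * e (ξ n)
    rw [hev, hev, hP'', hq', hP']
  have hqV : res qV ≠ 0 := by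
    have h1 : qV * ⟨_, hVq⟩ = 1 := by
      apply Subtype.ext
      change (qV : RatFunc M) * (algebraMap M[X] (RatFunc M) q)⁻¹ = 1
      rw [hev, hq']
      exact mul_inv_cancel₀ (fun h => hq0 (IsFractionRing.injective M[X] (RatFunc M)
        (by rw [h, map_zero])))
    intro h
    have h2 := congrArg res h1
    rw [map_mul, h, zero_mul, map_one] at h2
    exact zero_ne_one h2
  let Pb : Fin m → N[X] := fun n => (P' n).map (θ' : R →+* N)
  let qb : N[X] := q'.map (θ' : R →+* N)
  have hqb : qb ≠ 0 := by
    intro h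
    apply hqV
    change res (q'.eval₂ θ₀ tV) = 0
    rw [hres]
    change qb.eval₂ _ _ = 0
    rw [h, eval₂_zero]
  have hqb' : algebraMap N[X] (RatFunc N) qb ≠ 0 := fun h => hqb
    (IsFractionRing.injective N[X] (RatFunc N) (by rw [h, map_zero]))
  let 𝒴 : Fin m → RatFunc N := fun n =>
    algebraMap N[X] (RatFunc N) (Pb n) / algebraMap N[X] (RatFunc N) qb
  have h𝒴 : ∀ n, algebraMap N[X] (RatFunc N) (Pb n) = algebraMap N[X] (RatFunc N) qb * 𝒴 n := by
    intro n
    exact (mul_div_cancel₀ _ hqb').symm
  -- the homogeneous relations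
  let cR : k →+* R[X] := algebraMap k R[X]
  let toE : R[X] →+* RatFunc M := (algebraMap M[X] (RatFunc M)).comp
    (mapRingHom (R.val : R →+* M))
  have htoE : Function.Injective toE := (IsFractionRing.injective M[X] (RatFunc M)).comp
    (map_injective _ Subtype.val_injective)
  let toN : R[X] →+* N[X] := mapRingHom (θ' : R →+* N)
  have hkey1 : ∀ G : MvPolynomial (Fin m) k, toE (hom2 G cR P' q') =
      (algebraMap M[X] (RatFunc M) q) ^ G.totalDegree * e (MvPolynomial.aeval ξ G) := by
    intro G
    rw [map_hom2]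
    have h1 : (fun n => toE (P' n)) =
        fun n => algebraMap M[X] (RatFunc M) q * e (ξ n) := by
      ext n
      change algebraMap M[X] (RatFunc M) ((P' n).map (R.val : R →+* M)) = _
      rw [hP'', hP']
    have h2 : toE q' = algebraMap M[X] (RatFunc M) q := by
      change algebraMap M[X] (RatFunc M) (q'.map (R.val : R →+* M)) = _
      rw [hq']
    rw [h1, h2, hom2_eq]
    congr 1
    have h3 : toE.comp cR = (e : L →+* RatFunc M).comp (algebraMap k L) := by
      ext b
      change algebraMap M[X] (RatFunc M) ((C (algebraMap k R b)).map (R.val : R →+* M)) =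
        e (algebraMap k L b)
      rw [map_C, e.commutes]
      rfl
    rw [h3, MvPolynomial.aeval_def]
    exact (MvPolynomial.hom_eval₂ G (algebraMap k L) (e : L →+* RatFunc M) ξ).symm
  have hkey2 : ∀ G : MvPolynomial (Fin m) k, algebraMap N[X] (RatFunc N) (toN (hom2 G cR P' q')) =
      (algebraMap N[X] (RatFunc N) qb) ^ G.totalDegree * MvPolynomial.aeval 𝒴 G := by
    intro G
    rw [map_hom2, map_hom2]
    have h1 : (fun n => algebraMap N[X] (RatFunc N) (toN (P' n))) =
        fun n => algebraMap N[X] (RatFunc N) qb * 𝒴 n := by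
      ext n
      exact h𝒴 n
    rw [h1]
    change hom2 G _ _ (algebraMap N[X] (RatFunc N) qb) = _
    rw [hom2_eq]
    congr 1
    have h3 : (algebraMap N[X] (RatFunc N)).comp (toN.comp cR) = algebraMap k (RatFunc N) := by
      ext b
      change algebraMap N[X] (RatFunc N) ((C (algebraMap k R b)).map (θ' : R →+* N)) = _
      rw [map_C]
      have h4 : (θ' : R →+* N) (algebraMap k R b) = algebraMap k N b := θ'.commutes b
      rw [h4]
      rfl
    rw [h3]
    rfl
  have hkey3 : ∀ G : MvPolynomial (Fin m) k,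
      (toN (hom2 G cR P' q')).eval₂ (N.val : N →+* κ) t =
      (res qV) ^ G.totalDegree * lam (MvPolynomial.aeval ξ G) := by
    intro G
    change (eval₂RingHom (N.val : N →+* κ) t) (toN (hom2 G cR P' q')) = _
    rw [map_hom2, map_hom2]
    have h1 : (fun n => (eval₂RingHom (N.val : N →+* κ) t) (toN (P' n))) =
        fun n => res qV * lam (ξ n) := by
      ext n
      change ((P' n).map (θ' : R →+* N)).eval₂ (N.val : N →+* κ) t = _
      rw [← hres]
      change res (PV n) = _
      rw [hPV, map_mul]
      rfl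
    have h2 : (eval₂RingHom (N.val : N →+* κ) t) (toN q') = res qV := (hres q').symm
    rw [h1, h2, hom2_eq]
    congr 1
    have h3 : (eval₂RingHom (N.val : N →+* κ) t).comp (toN.comp cR) =
        lam.comp (algebraMap k L) := by
      ext b
      change ((C (algebraMap k R b)).map (θ' : R →+* N)).eval₂ (N.val : N →+* κ) t = _
      rw [map_C, eval₂_C]
      have h4 : (θ' : R →+* N) (algebraMap k R b) = algebraMap k N b := θ'.commutes b
      rw [h4]
      rfl
    rw [h3, MvPolynomial.aeval_def]
    exact (MvPolynomial.hom_eval₂ G (algebraMap k L) lam ξ).symm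
  have hker : ∀ G : MvPolynomial (Fin m) k, MvPolynomial.aeval ξ G = 0 ↔
      MvPolynomial.aeval 𝒴 G = 0 := by
    intro G
    constructor
    · intro h
      have h1 := hkey1 G
      rw [h, map_zero, mul_zero] at h1
      have h2 : hom2 G cR P' q' = 0 := htoE (by rw [h1, map_zero])
      have h3 := hkey2 G
      rw [h2, map_zero, map_zero] at h3
      rcases mul_eq_zero.1 h3.symm with h4 | h4
      · exact absurd h4 (pow_ne_zero _ hqb')
      · exact h4
    · intro h
      have h1 := hkey2 G
      rw [h, mul_zero] at h1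
      have h2 : toN (hom2 G cR P' q') = 0 := IsFractionRing.injective N[X] (RatFunc N)
        (by rw [h1, map_zero])
      have h3 := hkey3 G
      rw [h2, eval₂_zero] at h3
      rcases mul_eq_zero.1 h3.symm with h4 | h4
      · exact absurd h4 (pow_ne_zero _ hqV)
      · exact lam.injective (by rw [h4, map_zero])
  obtain ⟨i⟩ := embed_of_ker ξ hgen 𝒴 hker
  -- transcendence degrees
  have huR : u ∈ R := Algebra.subset_adjoin (by
    simp only [coefs, Finset.coe_union, Set.mem_union]
    exact Or.inr huS)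
  have huk : Transcendental k u := by
    intro h
    apply hu
    have h1 : IsAlgebraic k (algebraMap M (RatFunc M) u) := h.algebraMap
    exact h1.tower_top L
  let x₀ : R := aeval (⟨u, huR⟩ : R) Φ
  have hx₀' : (x₀ : M) = aeval u Φ := by
    change R.val (aeval (⟨u, huR⟩ : R) Φ) = _
    rw [← Polynomial.aeval_algHom_apply]
    rfl
  have hx₀ : x₀ ≠ 0 := by
    intro h
    apply huk
    exact ⟨Φ, hΦ, by rw [← hx₀', h]; rfl⟩
  have hθx₀ : θ x₀ = 0 := by
    rw [hθ]
    have h1 : ((θ₀ x₀ : V) : RatFunc M) = aeval (algebraMap M (RatFunc M) u) Φ := by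
      change algebraMap M (RatFunc M) (x₀ : M) = _
      rw [hx₀', Polynomial.aeval_algebraMap_apply]
    rw [IsLocalRing.residue_eq_zero_iff, V.valuation_lt_one_iff, h1,
      ← ValuationSubring.mem_nonunits_iff]
    exact hΦV
  have hdrop := trdeg_drop R θ x₀ hx₀ hθx₀
  refine ⟨N, inferInstance, inferInstance, ?_, ?_, ⟨i⟩⟩
  · let f : coefs → κ := fun b => θ ⟨b.1, Algebra.subset_adjoin b.2⟩
    have hNf : N = IntermediateField.adjoin k (Set.range f) := by
      apply le_antisymm
      · rw [IntermediateField.adjoin_le_iff]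
        rintro _ ⟨⟨b, hb⟩, rfl⟩
        change θ ⟨b, hb⟩ ∈ _
        induction hb using Algebra.adjoin_induction with
        | mem x hx => exact IntermediateField.subset_adjoin k _ ⟨⟨x, hx⟩, rfl⟩
        | algebraMap r =>
          have h1 : θ ⟨algebraMap k M r, R.algebraMap_mem r⟩ = algebraMap k κ r := θ.commutes r
          rw [h1]
          exact (IntermediateField.adjoin k (Set.range f)).algebraMap_mem r
        | add x y hx' hy' hx hy =>
          have h1 : θ ⟨x + y, R.add_mem hx' hy'⟩ = θ ⟨x, hx'⟩ + θ ⟨y, hy'⟩ :=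
            map_add θ (⟨x, hx'⟩ : R) ⟨y, hy'⟩
          rw [h1]
          exact add_mem hx hy
        | mul x y hx' hy' hx hy =>
          have h1 : θ ⟨x * y, R.mul_mem hx' hy'⟩ = θ ⟨x, hx'⟩ * θ ⟨y, hy'⟩ :=
            map_mul θ (⟨x, hx'⟩ : R) ⟨y, hy'⟩
          rw [h1]
          exact mul_mem hx hy
      · apply IntermediateField.adjoin.mono
        rintro _ ⟨b, rfl⟩
        exact ⟨_, rfl⟩
    have hfN : ∀ b, f b ∈ N := fun b => IntermediateField.subset_adjoin k _ ⟨_, rfl⟩
    rw [← adjoin_self_eq_top f N hNf hfN]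
    exact IntermediateField.fg_adjoin_of_finite (Set.finite_range _)
  · apply le_antisymm
    · rw [← hd]
      exact hdrop
    · have h1 := trdeg_le_of_injective i i.injective
      rwa [trdeg_ratFunc] at h1

end Pool.Agent.UQ
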