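import Pool.Agent.UQ.Defs
import Pool.Agent.UQ.Arc2
import Pool.Agent.UQ.Cut2

/-!
# Hypersurfaces of low weighted degree are uniruled
-/

namespace Pool.Agent.UQ

open Polynomial

universe u v

section Arc

variable {k : Type u} {L : Type u} {M : Type u} [Field k] [Field L] [Algebra k L] [Field M]
  [Algebra k M] {m : ℕ}

theorem embed_arc (ξ : Fin m → L)
    (hgen : IntermediateField.adjoin k (Set.range ξ) = ⊤)
    (htr : (m : Cardinal) ≤ Algebra.trdeg k L + 1) (F : MvPolynomial (Fin m) k) (hF : F ≠ 0)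
    (h0 : MvPolynomial.aeval ξ F = 0) (j : L →ₐ[k] M) (𝒳 : Fin m → M[X])
    (h1 : ∀ i, (𝒳 i).eval 0 = j (ξ i))
    (h2 : MvPolynomial.aeval 𝒳 F = 0) (i : Fin m) (hi : (𝒳 i).natDegree ≠ 0) :
    ∃ (e : L →ₐ[k] RatFunc M) (a : L), Transcendental M (e a) := by
  let π : M[X] →ₐ[k] M := (Polynomial.aeval (0 : M)).restrictScalars k
  let ψ : M[X] →ₐ[k] RatFunc M := IsScalarTower.toAlgHom k M[X] (RatFunc M)
  obtain ⟨e, he⟩ := exists_embedding ξ hgen htr F hF h0 j π 𝒳 (fun n => by
    have : π (𝒳 n) = (𝒳 n).eval 0 := by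
      change Polynomial.aeval (0 : M) (𝒳 n) = _
      rw [Polynomial.coe_aeval_eq_eval]
    rw [this, h1]) h2 ψ (IsFractionRing.injective M[X] (RatFunc M))
  refine ⟨e, ξ i, ?_⟩
  rw [he]
  have h3 : Transcendental M (𝒳 i) := Polynomial.transcendental _ hi
    (mem_nonZeroDivisors_of_ne_zero (leadingCoeff_ne_zero.2 (fun h => hi (by rw [h, natDegree_zero]))))
  exact (transcendental_algebraMap_iff (IsFractionRing.injective M[X] (RatFunc M))).2 h3

end Arc

section Descent

variable {k : Type u} {L : Type u} [Field k] [Field L] [Algebra k L] {m : ℕ}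

/-- a finitely generated subfield of the algebraic closure of `L`, containing `L` and given
elements, and the coefficients of given polynomials -/
theorem descent (ξ : Fin m → L) (hgen : IntermediateField.adjoin k (Set.range ξ) = ⊤)
    (T : Finset (AlgebraicClosure L)) (hT : ∀ i, algebraMap L (AlgebraicClosure L) (ξ i) ∈ T) :
    ∃ M : IntermediateField k (AlgebraicClosure L), (∀ b ∈ T, b ∈ M) ∧
      (⊤ : IntermediateField k M).FG ∧ Algebra.trdeg k M = Algebra.trdeg k L ∧
      ∀ a : L, algebraMap L (AlgebraicClosure L) a ∈ M := by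
  let f : T → AlgebraicClosure L := Subtype.val
  let M : IntermediateField k (AlgebraicClosure L) := IntermediateField.adjoin k (Set.range f)
  have hfM : ∀ b, f b ∈ M := fun b => IntermediateField.subset_adjoin k _ ⟨b, rfl⟩
  let ι : L →ₐ[k] AlgebraicClosure L := IsScalarTower.toAlgHom k L (AlgebraicClosure L)
  have hL : ∀ a : L, algebraMap L (AlgebraicClosure L) a ∈ M := by
    have h1 : (⊤ : IntermediateField k L) ≤ M.comap ι := by
      rw [← hgen, IntermediateField.adjoin_le_iff]
      rintro _ ⟨i, rfl⟩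
      exact hfM ⟨_, hT i⟩
    intro a
    exact h1 (IntermediateField.mem_top (x := a))
  refine ⟨M, fun b hb => hfM ⟨b, hb⟩, ?_, ?_, hL⟩
  · rw [← adjoin_self_eq_top f M rfl hfM]
    exact IntermediateField.fg_adjoin_of_finite (Set.finite_range _)
  · let alg : Algebra L M := ((algebraMap L (AlgebraicClosure L)).codRestrict M hL).toAlgebra
    have tow1 : IsScalarTower L M (AlgebraicClosure L) :=
      IsScalarTower.of_algebraMap_eq (fun _ => rfl)
    have tow2 : IsScalarTower k L M := IsScalarTower.of_algebraMap_eq (fun b => by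
      apply Subtype.ext
      exact (IsScalarTower.algebraMap_apply k L (AlgebraicClosure L) b))
    have h1 := trdeg_add_eq k L (A := M)
    have h2 : Algebra.trdeg L M = 0 := by
      rw [trdeg_eq_zero_iff]
      constructor
      intro b
      have h3 : IsAlgebraic L (algebraMap M (AlgebraicClosure L) b) :=
        Algebra.IsAlgebraic.isAlgebraic _
      exact (isAlgebraic_algebraMap_iff (FaithfulSMul.algebraMap_injective M _)).1 h3
    rw [h2, add_zero] at h1
    exact h1.symm

lemma exists_lift {K : Type u} [Field K] [Algebra k K] (M : IntermediateField k K) (p : K[X])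
    (hp : ∀ b ∈ p.coeffs, b ∈ M) : ∃ p' : M[X], p'.map (M.val : M →+* K) = p := by
  rw [← mem_lifts, lifts_iff_coeff_lifts]
  intro n
  by_cases h : p.coeff n = 0
  · exact ⟨0, by rw [h]; rfl⟩
  · exact ⟨⟨p.coeff n, hp _ (coeff_mem_coeffs h)⟩, rfl⟩

lemma map_aeval_val {K : Type u} [Field K] [Algebra k K] (M : IntermediateField k K)
    (F : MvPolynomial (Fin m) k) (𝒳 : Fin m → M[X]) :
    (MvPolynomial.aeval 𝒳 F).map (M.val : M →+* K) =
      MvPolynomial.aeval (fun i => (𝒳 i).map (M.val : M →+* K)) F :=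
  map_aeval_mv (k := k) (M.val : M →+* K) (fun _ => rfl) F 𝒳

theorem uniruled_of_arc (ξ : Fin m → L)
    (hgen : IntermediateField.adjoin k (Set.range ξ) = ⊤)
    (hfin : Algebra.trdeg k L < Cardinal.aleph0)
    (htr : (m : Cardinal) ≤ Algebra.trdeg k L + 1) (F : MvPolynomial (Fin m) k) (hF : F ≠ 0)
    (h0 : MvPolynomial.aeval ξ F = 0) (𝒳 : Fin m → (AlgebraicClosure L)[X])
    (h1 : ∀ i, (𝒳 i).eval 0 = algebraMap L (AlgebraicClosure L) (ξ i))
    (h2 : MvPolynomial.aeval 𝒳 F = 0) (i : Fin m) (hi : (𝒳 i).natDegree ≠ 0) :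
    Uniruled k L := by
  classical
  obtain ⟨M, hMT, hfg, htrM, hML⟩ := descent ξ hgen
    (Finset.univ.biUnion (fun n => (𝒳 n).coeffs) ∪
      Finset.univ.image (fun n => algebraMap L (AlgebraicClosure L) (ξ n)))
    (fun n => Finset.mem_union_right _ (Finset.mem_image_of_mem _ (Finset.mem_univ n)))
  choose 𝒳' h𝒳' using fun n => exists_lift M (𝒳 n) (fun b hb => hMT b
    (Finset.mem_union_left _ (Finset.mem_biUnion.2 ⟨n, Finset.mem_univ n, hb⟩)))
  let j : L →ₐ[k] M :=
    { (algebraMap L (AlgebraicClosure L)).codRestrict M hML with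
      commutes' := fun b => by
        apply Subtype.ext
        exact (IsScalarTower.algebraMap_apply k L (AlgebraicClosure L) b).symm }
  obtain ⟨e, a, ha⟩ := embed_arc ξ hgen htr F hF h0 j 𝒳' (fun n => by
    apply Subtype.ext
    change (M.val : M →+* AlgebraicClosure L) ((𝒳' n).eval 0) =
      algebraMap L (AlgebraicClosure L) (ξ n)
    rw [← h1, ← h𝒳', eval_zero_map]) (by
    apply Polynomial.map_injective (M.val : M →+* AlgebraicClosure L) M.val.injective
    rw [map_aeval_val, Polynomial.map_zero, ← h2]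
    congr 2
    ext1 n
    exact h𝒳' n) i (by
      rw [← h𝒳', natDegree_map] at hi
      exact hi)
  obtain ⟨M₂, f1, f2, f3, f4, f5⟩ := cut ξ hgen hfin htrM hfg e a ha
  exact ⟨M₂, f1, f2, f3, f4, f5⟩

theorem uniruled_strict (ξ : Fin m → L) (hgen : IntermediateField.adjoin k (Set.range ξ) = ⊤)
    (hfin : Algebra.trdeg k L < Cardinal.aleph0)
    (htr : (m : Cardinal) ≤ Algebra.trdeg k L + 1) (F : MvPolynomial (Fin m) k) (hF : F ≠ 0)
    (h0 : MvPolynomial.aeval ξ F = 0) (w : Fin m → ℕ)
    (hw : MvPolynomial.weightedTotalDegree w F < ∑ i, w i) : Uniruled k L := by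
  let K := AlgebraicClosure L
  let j : L →ₐ[k] K := IsScalarTower.toAlgHom k L K
  obtain ⟨𝒳, h1, h2, i, hi⟩ := arc_strict (K := K) F w hw (fun i => j (ξ i)) (by
    rw [← MvPolynomial.comp_aeval_apply, h0, map_zero])
  exact uniruled_of_arc ξ hgen hfin htr F hF h0 𝒳 h1 h2 i hi

end Descent

section Conic

variable {K : Type u} [Field K]

lemma transcendental_of_point {A : Type*} [CommRing A] [IsDomain A] [Algebra K A]
    (π : A →ₐ[K] K) (τ : A) (h0 : π τ = 0) (h1 : τ ≠ 0) : Transcendental K τ := by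
  rintro ⟨p, hp, hp'⟩
  obtain ⟨q, hpq, hq⟩ := exists_eq_pow_rootMultiplicity_mul_and_not_dvd p hp 0
  rw [C_0, sub_zero] at hpq hq
  rw [hpq, map_mul, map_pow, aeval_X, mul_eq_zero] at hp'
  rcases hp' with h | h
  · exact pow_ne_zero _ h1 h
  · apply hq
    rw [X_dvd_iff]
    have h2 := congrArg π h
    rw [map_zero, ← Polynomial.aeval_algHom_apply, h0, ← coeff_zero_eq_aeval_zero] at h2
    exact h2

/-- the local ring of the conic at its point -/
abbrev LocA (b : K[X]) : Type u := Localization.Away b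

theorem conic (h2 : (2 : K) ≠ 0) (r₁ r₂ : K) :
    ∃ (A : Type u) (_ : CommRing A) (_ : IsDomain A) (_ : Algebra K A) (π : A →ₐ[K] K)
      (ψ : A →ₐ[K] RatFunc K) (τ ρ : A), Function.Injective ψ ∧ π τ = 0 ∧ τ ≠ 0 ∧ π ρ = 1 ∧
        ρ ^ 2 = aeval τ (quad r₁ r₂) := by
  classical
  let b : K[X] := 1 - C r₂ * X ^ 2
  have hb0 : b.eval 0 = 1 := by simp [b]
  have hb : b ≠ 0 := by
    intro h
    rw [h, eval_zero] at hb0
    exact zero_ne_one hb0
  let A := Localization.Away b
  have hdom : IsDomain A := IsLocalization.isDomain_localization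
    (powers_le_nonZeroDivisors_of_noZeroDivisors hb)
  let ev : K[X] →ₐ[K] K := Polynomial.aeval (0 : K)
  have hev : ∀ p, ev p = p.eval 0 := fun p => by
    change Polynomial.aeval (0 : K) p = _
    rw [Polynomial.coe_aeval_eq_eval]
  have hu1 : ∀ y : Submonoid.powers b, IsUnit (ev y) := by
    rintro ⟨_, n, rfl⟩
    change IsUnit (ev (b ^ n))
    rw [map_pow, hev, hb0, one_pow]
    exact isUnit_one
  let em : K[X] →ₐ[K] RatFunc K := IsScalarTower.toAlgHom K K[X] (RatFunc K)
  have hem : Function.Injective em := IsFractionRing.injective K[X] (RatFunc K)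
  have hu2 : ∀ y : Submonoid.powers b, IsUnit (em y) := by
    rintro ⟨_, n, rfl⟩
    rw [isUnit_iff_ne_zero]
    intro h
    have h3 : em (b ^ n) = em 0 := by rw [map_zero]; exact h
    exact pow_ne_zero n hb (hem h3)
  let π : A →ₐ[K] K := IsLocalization.liftAlgHom (M := Submonoid.powers b) hu1
  let ψ : A →ₐ[K] RatFunc K := IsLocalization.liftAlgHom (M := Submonoid.powers b) hu2
  have hπ : ∀ p : K[X], π (algebraMap K[X] A p) = p.eval 0 := fun p => by
    rw [IsLocalization.liftAlgHom_apply]
    exact (IsLocalization.lift_eq _ _).trans (hev p)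
  have hψ : Function.Injective ψ := by
    rw [injective_iff_map_eq_zero]
    intro a ha
    obtain ⟨p, s, rfl⟩ := IsLocalization.exists_mk'_eq (Submonoid.powers b) a
    rw [IsLocalization.liftAlgHom_apply, IsLocalization.lift_mk'_spec, mul_zero] at ha
    have : p = 0 := hem (by rw [map_zero]; exact ha)
    rw [this, IsLocalization.mk'_zero]
  let c : A := IsLocalization.Away.invSelf b
  have hc : algebraMap K[X] A b * c = 1 := IsLocalization.Away.mul_invSelf b
  have hπc : π c = 1 := by
    have h := congrArg π hc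
    rwa [map_mul, hπ, hb0, one_mul, map_one] at h
  let τ : A := algebraMap K[X] A (C r₁ * X ^ 2 + 2 * X) * c
  let ρ : A := algebraMap K[X] A (1 + C r₁ * X + C r₂ * X ^ 2) * c
  refine ⟨A, inferInstance, hdom, inferInstance, π, ψ, τ, ρ, hψ, ?_, ?_, ?_, ?_⟩
  · rw [map_mul, hπ]
    simp
  · intro h
    have h3 : algebraMap K[X] A (C r₁ * X ^ 2 + 2 * X) = 0 := by
      rcases mul_eq_zero.1 h with h | h
      · exact h
      · rw [h, mul_zero] at hc
        exact absurd hc.symm one_ne_zero
    have h4 : (C r₁ * X ^ 2 + 2 * X : K[X]) = 0 :=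
      (IsLocalization.injective A (powers_le_nonZeroDivisors_of_noZeroDivisors hb))
        (by rw [h3, map_zero])
    have h5 := congrArg (fun q => coeff q 1) h4
    have h6 : (2 : K[X]) = C 2 := rfl
    simp only [h6, coeff_add, coeff_C_mul, coeff_X_pow, coeff_X_one, coeff_zero] at h5
    apply h2
    simpa using h5
  · rw [map_mul, hπ, hπc]
    simp
  · have h3 : aeval τ (quad r₁ r₂) = 1 + algebraMap K[X] A (C r₁) * τ +
        algebraMap K[X] A (C r₂) * τ ^ 2 := by
      unfold quad
      simp only [map_add, map_one, map_mul, map_pow, aeval_X, aeval_C]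
      rfl
    rw [h3]
    have h4 : algebraMap K[X] A b = 1 - algebraMap K[X] A (C r₂) * (algebraMap K[X] A X) ^ 2 := by
      simp only [b, map_sub, map_one, map_mul, map_pow]
    have h5 : τ = (algebraMap K[X] A (C r₁) * (algebraMap K[X] A X) ^ 2 +
        2 * (algebraMap K[X] A X)) * c := by
      simp only [τ, map_add, map_mul, map_pow, map_ofNat]
    have h6 : ρ = (1 + algebraMap K[X] A (C r₁) * (algebraMap K[X] A X) +
        algebraMap K[X] A (C r₂) * (algebraMap K[X] A X) ^ 2) * c := by
      simp only [ρ, map_add, map_mul, map_pow, map_one]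
    rw [h4] at hc
    rw [h5, h6]
    set e := algebraMap K[X] A X
    set R₁ := algebraMap K[X] A (C r₁)
    set R₂ := algebraMap K[X] A (C r₂)
    linear_combination ((1 + (1 - R₂ * e ^ 2) * c) + R₁ * ((R₁ * e ^ 2 + 2 * e) * c)) * hc
end Conic

section Square

variable {k : Type u} {L : Type u} [Field k] [Field L] [Algebra k L] {m : ℕ}

theorem uniruled_square (hk : (2 : k) ≠ 0) (ξ : Fin m → L)
    (hgen : IntermediateField.adjoin k (Set.range ξ) = ⊤)
    (hfin : Algebra.trdeg k L < Cardinal.aleph0)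
    (htr : (m : Cardinal) ≤ Algebra.trdeg k L + 1) (i₀ : Fin m) (H : MvPolynomial (Fin m) k)
    (hi₀ : i₀ ∉ H.vars) (h0 : ξ i₀ ^ 2 = MvPolynomial.aeval ξ H) (w : Fin m → ℕ)
    (hw0 : 0 < w i₀) (hdeg : MvPolynomial.weightedTotalDegree w H ≤ 2 * w i₀)
    (hsum : 2 * w i₀ ≤ ∑ i, w i) : Uniruled k L := by
  classical
  let F : MvPolynomial (Fin m) k := MvPolynomial.X i₀ ^ 2 - H
  have hF0 : MvPolynomial.aeval ξ F = 0 := by
    simp only [F, map_sub, map_pow, MvPolynomial.aeval_X, h0, sub_self]
  have hF : F ≠ 0 := by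
    intro h
    have h1 : MvPolynomial.X i₀ ^ 2 = H := sub_eq_zero.1 h
    have h2 := aeval_congr_vars (R := k) H i₀ hi₀ (fun _ => 0) (fun i => if i = i₀ then 1 else 0)
      (fun i hi => by simp [hi])
    rw [← h1] at h2
    simp at h2
  let K := AlgebraicClosure L
  let j : L →ₐ[k] K := IsScalarTower.toAlgHom k L K
  by_cases hne : ξ i₀ = 0
  · obtain ⟨i₁, hi₁⟩ := exists_index ξ hgen htr F hF hF0
    have h1 : i₁ = i₀ := by
      by_contra hcon
      have h2 := hi₁.transcendental ⟨i₀, fun h => hcon h.symm⟩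
      apply h2
      change IsAlgebraic k (ξ i₀)
      rw [hne]
      exact isAlgebraic_zero
    subst h1
    have hH : H = 0 := by
      obtain ⟨H', rfl⟩ := MvPolynomial.exists_rename_eq_of_vars_subset_range H
        (Subtype.val : {i : Fin m // i ≠ i₁} → Fin m) Subtype.val_injective (by
          intro i hi
          exact ⟨⟨i, fun h => hi₀ (h ▸ hi)⟩, rfl⟩)
      rw [MvPolynomial.aeval_rename, hne, zero_pow (by norm_num)] at h0
      rw [(injective_iff_map_eq_zero _).1 hi₁ H' h0.symm, map_zero]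
    obtain ⟨i₂, hi₂⟩ : ∃ i₂, i₂ ≠ i₁ := by
      by_contra hcon
      push Not at hcon
      have h3 : ∑ i, w i = w i₁ := Fintype.sum_eq_single i₁ (fun i hi => absurd (hcon i) hi)
      omega
    refine uniruled_of_arc ξ hgen hfin htr F hF hF0
      (fun i => C (algebraMap L (AlgebraicClosure L) (ξ i)) + if i = i₂ then X else 0) ?_ ?_ i₂ ?_
    · intro i
      by_cases h : i = i₂ <;> simp [h]
    · simp only [F, hH, sub_zero, map_pow, MvPolynomial.aeval_X]
      rw [hne, if_neg hi₂.symm]
      simp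
    · simp only [if_true]
      rw [add_comm, natDegree_X_add_C]
      exact one_ne_zero
  · obtain ⟨𝒳, a, b, h1, h2, i, hi, hi'⟩ := arc_square (K := K) H i₀ hi₀ w hw0 hdeg hsum
      (fun i => j (ξ i)) (by
        rw [← map_pow, h0, ← MvPolynomial.comp_aeval_apply]) (by
        intro h
        have h' : j (ξ i₀) = j 0 := by rw [h, map_zero]
        exact hne (j.injective h'))
    obtain ⟨M, hMT, hfg, htrM, hML⟩ := descent ξ hgen
      ((Finset.univ.biUnion (fun n => (𝒳 n).coeffs) ∪ {a, b}) ∪
        Finset.univ.image (fun n => algebraMap L (AlgebraicClosure L) (ξ n)))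
      (fun n => Finset.mem_union_right _ (Finset.mem_image_of_mem _ (Finset.mem_univ n)))
    choose 𝒳' h𝒳' using fun n => exists_lift M (𝒳 n) (fun b hb => hMT b
      (Finset.mem_union_left _ (Finset.mem_union_left _
        (Finset.mem_biUnion.2 ⟨n, Finset.mem_univ n, hb⟩))))
    have haM : a ∈ M := hMT a (by simp)
    have hbM : b ∈ M := hMT b (by simp)
    let jM : L →ₐ[k] M :=
      { (algebraMap L (AlgebraicClosure L)).codRestrict M hML with
        commutes' := fun b => by
          apply Subtype.ext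
          exact (IsScalarTower.algebraMap_apply k L (AlgebraicClosure L) b).symm }
    let a' : M := ⟨a, haM⟩
    let b' : M := ⟨b, hbM⟩
    have h1M : ∀ n, (𝒳' n).eval 0 = jM (ξ n) := by
      intro n
      apply Subtype.ext
      change (M.val : M →+* AlgebraicClosure L) ((𝒳' n).eval 0) =
        algebraMap L (AlgebraicClosure L) (ξ n)
      rw [← eval_zero_map, h𝒳']
      exact h1 n
    have h2M : 𝒳' i₀ ^ 2 * quad a' b' = MvPolynomial.aeval 𝒳' H := by
      apply Polynomial.map_injective (M.val : M →+* AlgebraicClosure L) M.val.injective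
      rw [map_aeval_val, Polynomial.map_mul, Polynomial.map_pow, quad_map, h𝒳']
      have h3 : (fun n => (𝒳' n).map (M.val : M →+* AlgebraicClosure L)) = 𝒳 := by
        ext1 n
        exact h𝒳' n
      rw [h3]
      exact h2
    have hiM : (𝒳' i).natDegree ≠ 0 := by
      rw [← h𝒳', natDegree_map] at hi'
      exact hi'
    have h2K : (2 : M) ≠ 0 := by
      intro h
      apply hk
      apply (algebraMap k M).injective
      rw [map_ofNat, map_zero, h]
    obtain ⟨A, hA1, hA2, hA3, π, ψ, τ, ρ, hψ, hπτ, hτ, hπρ, hρ⟩ := conic h2K a' b'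
    let algkA : Algebra k A := ((algebraMap M A).comp (algebraMap k M)).toAlgebra
    have tow : IsScalarTower k M A := IsScalarTower.of_algebraMap_eq (fun _ => rfl)
    let 𝒴 : Fin m → A := fun i => if i = i₀ then aeval τ (𝒳' i₀) * ρ else aeval τ (𝒳' i)
    have hH : MvPolynomial.aeval 𝒴 H = (aeval τ (𝒳' i₀) * ρ) ^ 2 := by
      have h3 : MvPolynomial.aeval 𝒴 H = MvPolynomial.aeval (fun i => aeval τ (𝒳' i)) H :=
        aeval_congr_vars H i₀ hi₀ _ _ (fun i hi => by simp [𝒴, hi])
      have h4 : MvPolynomial.aeval (fun i => aeval τ (𝒳' i)) H =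
          ((aeval τ : M[X] →ₐ[M] A).restrictScalars k) (MvPolynomial.aeval 𝒳' H) :=
        (MvPolynomial.comp_aeval_apply 𝒳' ((aeval τ : M[X] →ₐ[M] A).restrictScalars k) H).symm
      rw [h3, h4, ← h2M]
      change aeval τ (𝒳' i₀ ^ 2 * quad a' b') = _
      rw [map_mul, map_pow, mul_pow, hρ]
    obtain ⟨e, he⟩ := exists_embedding ξ hgen htr F hF hF0 jM (π.restrictScalars k) 𝒴 (fun n => by
      have h5 : ∀ n, π (aeval τ (𝒳' n)) = jM (ξ n) := by
        intro n
        rw [← Polynomial.aeval_algHom_apply, hπτ, Polynomial.coe_aeval_eq_eval]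
        exact h1M n
      change π (𝒴 n) = _
      by_cases hn : n = i₀
      · subst hn
        simp only [𝒴, if_true, map_mul, hπρ, mul_one]
        exact h5 n
      · simp only [𝒴, if_neg hn]
        exact h5 n) (by
      simp only [F, map_sub, map_pow, MvPolynomial.aeval_X, hH]
      simp [𝒴]) (ψ.restrictScalars k) hψ
    have h6 : Transcendental M (𝒳' i) := Polynomial.transcendental _ hiM
      (mem_nonZeroDivisors_of_ne_zero (leadingCoeff_ne_zero.2
        (fun h => hiM (by rw [h, natDegree_zero]))))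
    have h7 := (transcendental_of_point π τ hπτ hτ).aeval_of_transcendental h6
    have h8 : 𝒴 i = aeval τ (𝒳' i) := by simp [𝒴, hi]
    have h9 : Transcendental M (e (ξ i)) := by
      rw [he, h8]
      intro halg
      exact h7 ((isAlgebraic_algHom_iff ψ hψ).1 halg)
    obtain ⟨M₂, f1, f2, f3, f4, f5⟩ := cut ξ hgen hfin htrM hfg e (ξ i) h9
    exact ⟨M₂, f1, f2, f3, f4, f5⟩

end Square

end Pool.Agent.UQ
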