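import Mathlib

/-!
# Uniruled quotients `(X × D) / G`: the definitions used in the statement
-/

namespace Pool.Agent.UQ

open Polynomial

universe u

/-- `L / k` is uniruled: `L` embeds over `k` in a rational function field `M(τ)`, where `M` is a
finitely generated field extension of `k` of transcendence degree one less than that of `L`: the
variety of `L` is dominated by the product of `P¹` and a variety of dimension one less. -/
def Uniruled (k L : Type u) [Field k] [Field L] [Algebra k L] : Prop :=
  ∃ (M : Type u) (_ : Field M) (_ : Algebra k M), (⊤ : IntermediateField k M).FG ∧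
    Algebra.trdeg k M + 1 = Algebra.trdeg k L ∧ Nonempty (L →ₐ[k] RatFunc M)

/-- `φ` is an additive polynomial: additive on all field extensions of `k`. -/
def AddPoly {k : Type u} [Field k] (φ : k[X]) : Prop :=
  ∀ (L : Type u) [Field L] [Algebra k L] (a b : L), aeval (a + b) φ = aeval a φ + aeval b φ

/-- The polynomial `P(x, y, g(w, s))` in four variables `x, y, w, s`. -/
noncomputable def total {k : Type u} [Field k] (P : MvPolynomial (Fin 3) k)
    (g : MvPolynomial (Fin 2) k) : MvPolynomial (Fin 4) k :=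
  MvPolynomial.bind₁ ![MvPolynomial.X 0, MvPolynomial.X 1, MvPolynomial.rename ![2, 3] g] P

/-- The polynomial `F(x, y, r₁(x, y) w, r₂(x, y) s)`. -/
noncomputable def scale {k : Type u} [Field k] (r₁ r₂ : MvPolynomial (Fin 2) k)
    (F : MvPolynomial (Fin 4) k) : MvPolynomial (Fin 4) k :=
  MvPolynomial.bind₁ ![MvPolynomial.X 0, MvPolynomial.X 1,
    MvPolynomial.rename ![0, 1] r₁ * MvPolynomial.X 2,
    MvPolynomial.rename ![0, 1] r₂ * MvPolynomial.X 3] F

/-- The curve `D` with coordinates `u, v` and the functions `w, s` on `X × D`: either `φ = z ^ n`,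
`g` is weighted homogeneous of degree `n` for weights `a, b`, `D : g(u, v) = 1`, `w = z ^ a u`,
`s = z ^ b v`, or `φ` is additive, `g = φ(w) + h(s)`, `D : φ(u) = h(v)`, `w = z - u`, `s = v`. -/
def Twist {k K : Type u} [Field k] [Field K] [Algebra k K] (φ : k[X]) (g : MvPolynomial (Fin 2) k)
    (z u v w s : K) : Prop :=
  (∃ n a b : ℕ, 0 < n ∧ φ = X ^ n ∧ g.IsWeightedHomogeneous ![a, b] n ∧ z ≠ 0 ∧
      MvPolynomial.aeval ![u, v] g = 1 ∧ w = z ^ a * u ∧ s = z ^ b * v) ∨
    (AddPoly φ ∧ φ ≠ 0 ∧ ∃ h : k[X],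
      g = aeval (MvPolynomial.X 0) φ + aeval (MvPolynomial.X 1) h ∧ aeval u φ = aeval v h ∧
        w = z - u ∧ s = v)

end Pool.Agent.UQ
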