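import Mathlib

/-!
# Transcendence degrees
-/

namespace Pool.Agent.UQ

open Polynomial

universe u

lemma trdeg_ratFunc (k M : Type u) [Field k] [Field M] [Algebra k M] :
    Algebra.trdeg k (RatFunc M) = Algebra.trdeg k M + 1 := by
  have h1 := trdeg_add_eq k M (A := RatFunc M)
  have h2 := trdeg_add_eq M M[X] (A := RatFunc M)
  have h3 : Algebra.trdeg M[X] (RatFunc M) = 0 := by
    rw [trdeg_eq_zero_iff]
    exact (IsFractionRing.comap_isAlgebraic_iff (A := M[X]) (K := RatFunc M)
      (C := RatFunc M)).2 inferInstance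
  rw [h3, add_zero, Polynomial.trdeg_of_isDomain] at h2
  rw [← h1, ← h2]

/-- the transcendence degree drops under a proper specialization -/
theorem trdeg_drop {k M Ω : Type u} [Field k] [Field M] [Algebra k M] [Field Ω] [Algebra k Ω]
    (R : Subalgebra k M) (θ : R →ₐ[k] Ω) (x₀ : R) (hx₀ : x₀ ≠ 0) (hθ : θ x₀ = 0) :
    Algebra.trdeg k (IntermediateField.adjoin k (Set.range θ)) + 1 ≤ Algebra.trdeg k M := by
  classical
  let N := IntermediateField.adjoin k (Set.range θ)
  let s : Set N := {a | (a : Ω) ∈ Set.range θ}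
  have halg : Algebra.IsAlgebraic (Algebra.adjoin k s) N := by
    constructor
    rintro ⟨a, ha⟩
    obtain ⟨r, hr, t, ht, rfl⟩ := IntermediateField.mem_adjoin_iff_div.1 ha
    have hrange : ∀ b : Ω, b ∈ Algebra.adjoin k (Set.range θ) → ∃ c : R, θ c = b := by
      intro b hb
      have h1 : Algebra.adjoin k (Set.range θ) ≤ θ.range := by
        rw [Algebra.adjoin_le_iff]
        rintro _ ⟨c, rfl⟩
        exact ⟨c, rfl⟩
      exact h1 hb
    have hmem : ∀ b : Ω, b ∈ Algebra.adjoin k (Set.range θ) → ∃ h : b ∈ N,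
        (⟨b, h⟩ : N) ∈ Algebra.adjoin k s := by
      intro b hb
      obtain ⟨c, rfl⟩ := hrange b hb
      exact ⟨IntermediateField.subset_adjoin k _ ⟨c, rfl⟩, Algebra.subset_adjoin ⟨c, rfl⟩⟩
    obtain ⟨hr1, hr2⟩ := hmem r hr
    obtain ⟨ht1, ht2⟩ := hmem t ht
    have h1 : IsAlgebraic (Algebra.adjoin k s) (⟨r, hr1⟩ : N) :=
      isAlgebraic_algebraMap (⟨⟨r, hr1⟩, hr2⟩ : Algebra.adjoin k s)
    have h2 : IsAlgebraic (Algebra.adjoin k s) (⟨t, ht1⟩ : N) :=
      isAlgebraic_algebraMap (⟨⟨t, ht1⟩, ht2⟩ : Algebra.adjoin k s)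
    have h3 : (⟨r / t, ha⟩ : N) = ⟨r, hr1⟩ * (⟨t, ht1⟩ : N)⁻¹ := by
      apply Subtype.ext
      exact div_eq_mul_inv r t
    rw [h3]
    exact h1.mul h2.inv
  obtain ⟨t, ht, hb⟩ := exists_isTranscendenceBasis_subset (R := k) s
  have hcard := hb.cardinalMk_eq_trdeg
  choose f hf using fun b : t => ht b.2
  have hval : (fun b : t => θ (f b)) = fun b : t => ((b : N) : Ω) := by
    ext b
    exact hf b
  have hindΩ : AlgebraicIndependent k (fun b : t => θ (f b)) := by
    rw [hval]
    exact hb.1.map' (f := N.val) N.val.injective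
  have hindR : AlgebraicIndependent k f := AlgebraicIndependent.of_comp θ hindΩ
  have htr : Transcendental (Algebra.adjoin k (Set.range f)) x₀ := by
    intro halg0
    obtain ⟨q, hq0, hq⟩ := halg0.exists_nonzero_coeff_and_aeval_eq_zero
      (mem_nonZeroDivisors_of_ne_zero hx₀)
    have h3 : θ ((q.coeff 0 : Algebra.adjoin k (Set.range f)) : R) = 0 := by
      have h4 := congrArg θ hq
      rw [map_zero, Polynomial.aeval_eq_sum_range, map_sum, Finset.sum_range_succ'] at h4
      rw [Finset.sum_eq_zero, zero_add, pow_zero] at h4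
      · rw [Algebra.smul_def, mul_one] at h4
        exact h4
      · intro i _
        rw [Algebra.smul_def, map_mul, map_pow, hθ, pow_succ, mul_zero, mul_zero]
    obtain ⟨c, hc⟩ : ∃ c, MvPolynomial.aeval f c =
        ((q.coeff 0 : Algebra.adjoin k (Set.range f)) : R) := by
      have h7 : ((q.coeff 0 : Algebra.adjoin k (Set.range f)) : R) ∈
          (MvPolynomial.aeval f : _ →ₐ[k] R).range := by
        rw [← Algebra.adjoin_range_eq_range_aeval]
        exact (q.coeff 0).2
      exact h7
    have h8 : MvPolynomial.aeval (fun b => θ (f b)) c = 0 := by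
      have h9 := MvPolynomial.comp_aeval_apply f θ c
      rw [← h9, hc, h3]
    have h10 := (injective_iff_map_eq_zero _).1 hindΩ c h8
    rw [h10, map_zero] at hc
    exact hq0 (Subtype.ext hc.symm)
  have hopt := (hindR.option_iff_transcendental x₀).2 htr
  have hoptM := hopt.map' (f := R.val) Subtype.val_injective
  have h1 := hoptM.cardinalMk_le_trdeg
  rw [Cardinal.mk_option, hcard] at h1
  exact h1

end Pool.Agent.UQ
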