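import Pool.Agent.UQ.Main

/-!
# Families (not a hand-in): the hypotheses of the main theorem for cyclic planes
-/

namespace Pool.Agent.UQ

open Polynomial

universe u

variable {k : Type u} [Field k]

/-- `w ^ N + s ^ 2` -/
noncomputable def gN (N : ℕ) : MvPolynomial (Fin 2) k := MvPolynomial.X 0 ^ N + MvPolynomial.X 1 ^ 2

lemma gN_hom (N c : ℕ) (_hN : 0 < N) :
    (gN N : MvPolynomial (Fin 2) k).IsWeightedHomogeneous ![2 * c, N * c] (2 * N * c) := by
  unfold gN
  refine MvPolynomial.IsWeightedHomogeneous.add ?_ ?_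
  · have h := (MvPolynomial.isWeightedHomogeneous_X k ![2 * c, N * c] (0 : Fin 2)).pow N
    have h2 : N • (![2 * c, N * c] : Fin 2 → ℕ) 0 = 2 * N * c := by
      simp
      ring
    rwa [h2] at h
  · have h := (MvPolynomial.isWeightedHomogeneous_X k ![2 * c, N * c] (1 : Fin 2)).pow 2
    have h2 : 2 • (![2 * c, N * c] : Fin 2 → ℕ) 1 = 2 * N * c := by
      simp
      ring
    rwa [h2] at h

lemma wtd_le_iff {σ : Type*} (w : σ → ℕ) (p : MvPolynomial σ k) (D : ℕ) :
    MvPolynomial.weightedTotalDegree w p ≤ D ↔ ∀ d ∈ p.support, Finsupp.weight w d ≤ D := by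
  unfold MvPolynomial.weightedTotalDegree
  exact Finset.sup_le_iff

lemma wtd_sub (w : Fin 4 → ℕ) (p q : MvPolynomial (Fin 4) k) (D : ℕ)
    (hp : MvPolynomial.weightedTotalDegree w p ≤ D) (hq : MvPolynomial.weightedTotalDegree w q ≤ D) :
    MvPolynomial.weightedTotalDegree w (p - q) ≤ D := by
  rw [wtd_le_iff] at *
  intro d hd
  rcases Finset.mem_union.1 (MvPolynomial.support_sub _ p q hd) with h | h
  · exact hp d h
  · exact hq d h

lemma wtd_mul (w : Fin 4 → ℕ) (p q : MvPolynomial (Fin 4) k) (D E : ℕ)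
    (hp : MvPolynomial.weightedTotalDegree w p ≤ D) (hq : MvPolynomial.weightedTotalDegree w q ≤ E) :
    MvPolynomial.weightedTotalDegree w (p * q) ≤ D + E := by
  classical
  rw [wtd_le_iff] at *
  intro d hd
  obtain ⟨a, ha, b, hb, rfl⟩ := Finset.mem_add.1 (MvPolynomial.support_mul p q hd)
  rw [map_add]
  exact add_le_add (hp a ha) (hq b hb)

lemma wtd_X_pow (w : Fin 4 → ℕ) (i : Fin 4) (n : ℕ) :
    MvPolynomial.weightedTotalDegree w (MvPolynomial.X i ^ n : MvPolynomial (Fin 4) k) ≤
      n * w i := by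
  rw [wtd_le_iff]
  intro d hd
  rw [MvPolynomial.support_X_pow, Finset.mem_singleton] at hd
  rw [hd, Finsupp.weight_single]
  simp

lemma wtd_rename (w : Fin 4 → ℕ) (p : MvPolynomial (Fin 2) k) (D : ℕ)
    (hp : MvPolynomial.weightedTotalDegree ![w 0, w 1] p ≤ D) :
    MvPolynomial.weightedTotalDegree w (MvPolynomial.rename (![0, 1] : Fin 2 → Fin 4) p) ≤ D := by
  classical
  rw [wtd_le_iff] at *
  intro d hd
  have hinj : Function.Injective (![0, 1] : Fin 2 → Fin 4) := by decide
  rw [MvPolynomial.support_rename_of_injective hinj, Finset.mem_image] at hd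
  obtain ⟨e, he, rfl⟩ := hd
  refine le_trans (le_of_eq ?_) (hp e he)
  rw [Finsupp.weight_apply, Finsupp.weight_apply, Finsupp.sum_mapDomain_index (by simp)
    (by intros; simp [add_mul])]
  rw [Finsupp.sum_fintype _ _ (by simp), Finsupp.sum_fintype _ _ (by simp)]
  refine Finset.sum_congr rfl (fun i _ => ?_)
  fin_cases i <;> simp

/-- `z ^ n = f / q ^ 2`, all `n`: weight of `f` at most `2 (α + β)`, of `q` at most `α + β`. -/
theorem allN (hk : (2 : k) ≠ 0) (K : Type u) [Field K] [Algebra k K]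
    (f q : MvPolynomial (Fin 2) k) (α β N c : ℕ) (hN : 0 < N) (hc : 0 < c) (hαβ : 0 < α + β)
    (hf : MvPolynomial.weightedTotalDegree ![α, β] f ≤ 2 * (α + β))
    (hq : MvPolynomial.weightedTotalDegree ![α, β] q ≤ α + β)
    (x y z u v : K) (hz : z ≠ 0) (hqx : MvPolynomial.aeval ![x, y] q ≠ 0)
    (hX : z ^ (2 * N * c) = MvPolynomial.aeval ![x, y] f / MvPolynomial.aeval ![x, y] q ^ 2)
    (hD : u ^ N + v ^ 2 = 1) (hK : IntermediateField.adjoin k {x, y, z, u, v} = ⊤)
    (h3 : Algebra.trdeg k K = 3) :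
    Uniruled k (IntermediateField.adjoin k {x, y, z ^ (2 * c) * u, z ^ (N * c) * v}) := by
  let P : MvPolynomial (Fin 3) k := MvPolynomial.X 2 * MvPolynomial.rename ![0, 1] q ^ 2 -
    MvPolynomial.rename ![0, 1] f
  have hr3 : ∀ (r : MvPolynomial (Fin 2) k) (t : K),
      MvPolynomial.aeval ![x, y, t] (MvPolynomial.rename ![0, 1] r : MvPolynomial (Fin 3) k) =
        MvPolynomial.aeval ![x, y] r := by
    intro r t
    rw [MvPolynomial.aeval_rename]
    congr 2
    ext j
    fin_cases j <;> simp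
  have hr4 : ∀ (r : MvPolynomial (Fin 2) k) (A : MvPolynomial (Fin 4) k),
      MvPolynomial.bind₁ ![MvPolynomial.X 0, MvPolynomial.X 1, A]
        (MvPolynomial.rename ![0, 1] r : MvPolynomial (Fin 3) k) =
        (MvPolynomial.rename ![0, 1] r : MvPolynomial (Fin 4) k) := by
    intro r A
    have h : (MvPolynomial.bind₁ (![MvPolynomial.X 0, MvPolynomial.X 1, A] :
        Fin 3 → MvPolynomial (Fin 4) k)).comp (MvPolynomial.rename (![0, 1] : Fin 2 → Fin 3)) =
        MvPolynomial.rename (![0, 1] : Fin 2 → Fin 4) := by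
      apply MvPolynomial.algHom_ext
      intro j
      fin_cases j <;> simp
    exact AlgHom.congr_fun h r
  have hr5 : ∀ (r : MvPolynomial (Fin 2) k) (A B : MvPolynomial (Fin 4) k),
      MvPolynomial.bind₁ ![MvPolynomial.X 0, MvPolynomial.X 1, A, B]
        (MvPolynomial.rename ![0, 1] r : MvPolynomial (Fin 4) k) =
        (MvPolynomial.rename ![0, 1] r : MvPolynomial (Fin 4) k) := by
    intro r A B
    have h : (MvPolynomial.bind₁ (![MvPolynomial.X 0, MvPolynomial.X 1, A, B] :
        Fin 4 → MvPolynomial (Fin 4) k)).comp (MvPolynomial.rename (![0, 1] : Fin 2 → Fin 4)) =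
        MvPolynomial.rename (![0, 1] : Fin 2 → Fin 4) := by
      apply MvPolynomial.algHom_ext
      intro j
      fin_cases j <;> simp
    exact AlgHom.congr_fun h r
  have hq0 : q ≠ 0 := by
    rintro rfl
    simp at hqx
  have hP : P ≠ 0 := by
    intro h0
    have := congrArg (MvPolynomial.aeval ![x, y, z ^ (2 * N * c) + 1]) h0
    simp only [P, map_sub, map_mul, map_pow, hr3, MvPolynomial.aeval_X, map_zero] at this
    rw [hX] at this
    have h2 : MvPolynomial.aeval ![x, y] q ^ 2 ≠ 0 := pow_ne_zero 2 hqx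
    have h3 : (MvPolynomial.aeval ![x, y] q ^ 2 : K) = 0 := by
      have e : (![x, y, MvPolynomial.aeval ![x, y] f / MvPolynomial.aeval ![x, y] q ^ 2 + 1] : Fin 3 → K) 2 =
        MvPolynomial.aeval ![x, y] f / MvPolynomial.aeval ![x, y] q ^ 2 + 1 := rfl
      rw [e] at this
      field_simp at this
      linear_combination this
    exact h2 h3
  let F : MvPolynomial (Fin 4) k := MvPolynomial.X 3 ^ 2 -
    (MvPolynomial.rename ![0, 1] f - MvPolynomial.rename ![0, 1] q ^ 2 * MvPolynomial.X 2 ^ N)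
  have hF : scale 1 q F = total P (gN N) := by
    simp only [scale, total, F, P, map_sub, map_mul, map_pow, map_one, one_mul, hr4, hr5,
      MvPolynomial.bind₁_X_right, gN, map_add, MvPolynomial.rename_X]
    simp
    ring
  have hω : MvPolynomial.weightedTotalDegree ![α, β, 0, α + β]
      (MvPolynomial.rename ![0, 1] f - MvPolynomial.rename ![0, 1] q ^ 2 *
        MvPolynomial.X 2 ^ N : MvPolynomial (Fin 4) k) ≤ 2 * (α + β) := by
    refine wtd_sub _ _ _ _ (wtd_rename _ _ _ hf) ?_
    have h1 : MvPolynomial.weightedTotalDegree ![α, β, 0, α + β]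
        (MvPolynomial.rename ![0, 1] q : MvPolynomial (Fin 4) k) ≤ α + β := wtd_rename _ _ _ hq
    have h2 := wtd_mul _ _ _ _ _ h1 h1
    have h3 := wtd_mul _ _ _ _ _ h2 (wtd_X_pow (k := k) ![α, β, 0, α + β] 2 N)
    rw [← sq] at h3
    refine h3.trans (le_of_eq ?_)
    simp
    ring
  have hT : Twist (X ^ (2 * N * c)) (gN N : MvPolynomial (Fin 2) k) z u v
      (z ^ (2 * c) * u) (z ^ (N * c) * v) := by
    left
    refine ⟨2 * N * c, 2 * c, N * c, by positivity, rfl, gN_hom N c hN, hz, ?_, rfl, rfl⟩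
    simpa [gN] using hD
  refine (main k K P hP (X ^ (2 * N * c)) (gN N) x y z u v (z ^ (2 * c) * u) (z ^ (N * c) * v)
    ?_ hT hK h3 1 q (by simp) hqx F hF ![α, β, 0, α + β] (Or.inr ⟨hk, 3, _, ?_, rfl, ?_, hω, ?_⟩)).1
  · simp only [P, map_sub, map_mul, map_pow, hr3, MvPolynomial.aeval_X, aeval_X]
    change z ^ (2 * N * c) * _ - _ = 0
    rw [hX]
    field_simp
    ring
  · intro h3
    classical
    have hv : ∀ r : MvPolynomial (Fin 2) k,
        (3 : Fin 4) ∉ (MvPolynomial.rename ![0, 1] r : MvPolynomial (Fin 4) k).vars := by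
      intro r hr
      have := MvPolynomial.vars_rename (![0, 1] : Fin 2 → Fin 4) r hr
      rw [Finset.mem_image] at this
      obtain ⟨j, -, hj⟩ := this
      fin_cases j <;> simp at hj
    rcases Finset.mem_union.1 (MvPolynomial.vars_sub_subset _ h3) with h | h
    · exact hv f h
    · rcases Finset.mem_union.1 (MvPolynomial.vars_mul _ _ h) with h | h
      · exact hv q (MvPolynomial.vars_pow _ 2 h)
      · have := MvPolynomial.vars_pow _ N h
        rw [MvPolynomial.vars_X] at this
        simp at this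
  · simpa using hαβ
  · simp [Fin.sum_univ_four]
    omega

end Pool.Agent.UQ
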