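import Pool.Agent.UQ.Krull

/-!
# Polynomial arcs on hypersurfaces of low weighted degree
-/

namespace Pool.Agent.UQ

open Polynomial

universe u v

section Degree

variable {k : Type u} {R : Type v} [Field k] [CommRing R] [Algebra k R] {m : ℕ}

lemma natDegree_aeval_le (F : MvPolynomial (Fin m) k) (w : Fin m → ℕ) (𝒳 : Fin m → R[X])
    (h𝒳 : ∀ i, (𝒳 i).natDegree ≤ w i) :
    (MvPolynomial.aeval 𝒳 F).natDegree ≤ MvPolynomial.weightedTotalDegree w F := by
  rw [MvPolynomial.aeval_def, MvPolynomial.eval₂_eq']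
  refine natDegree_sum_le_of_forall_le _ _ (fun d hd => ?_)
  refine le_trans ?_ (MvPolynomial.le_weightedTotalDegree w hd)
  have h1 : (algebraMap k R[X] (MvPolynomial.coeff d F)) =
      C (algebraMap k R (MvPolynomial.coeff d F)) := rfl
  rw [h1]
  refine (natDegree_C_mul_le _ _).trans ?_
  refine (natDegree_prod_le _ _).trans ?_
  rw [Finsupp.weight_apply, Finsupp.sum_fintype _ _ (by simp)]
  refine Finset.sum_le_sum (fun i _ => ?_)
  refine (natDegree_pow_le).trans ?_
  simpa using Nat.mul_le_mul_left (d i) (h𝒳 i)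

lemma aeval_congr_vars (H : MvPolynomial (Fin m) k) (i₀ : Fin m) (h : i₀ ∉ H.vars)
    (f g : Fin m → R) (hfg : ∀ i, i ≠ i₀ → f i = g i) :
    MvPolynomial.aeval f H = MvPolynomial.aeval g H := by
  refine MvPolynomial.eval₂Hom_congr' rfl (fun i hi _ => ?_) rfl
  exact hfg i (fun h' => h (h' ▸ hi))

end Degree

section Core

variable {K : Type u} [Field K] [IsAlgClosed K] {ι : Type v} [Fintype ι]

/-- A polynomial in `τ` with coefficients polynomials in more unknowns than its degree vanishes for
nonzero values of the unknowns, if it vanishes for the unknowns zero, and for `τ = 0`. -/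
lemma exists_map_eq_zero (G : (MvPolynomial ι K)[X]) (hG : G.natDegree < Fintype.card ι)
    (h0 : G.coeff 0 = 0) (h1 : G.map MvPolynomial.constantCoeff = 0) :
    ∃ y : ι → K, y ≠ 0 ∧ G.map (MvPolynomial.aeval y : MvPolynomial ι K →ₐ[K] K).toRingHom = 0 := by
  classical
  obtain ⟨y, hy, hy'⟩ := exists_ne_zero
    ((Finset.Icc 1 G.natDegree).image (fun j => G.coeff j))
    (lt_of_le_of_lt Finset.card_image_le (by simpa using hG)) (by
      intro p hp
      obtain ⟨j, _, rfl⟩ := Finset.mem_image.1 hp
      have := congrArg (fun q => coeff q j) h1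
      simpa [coeff_map] using this)
  refine ⟨y, hy, ?_⟩
  ext j
  rw [coeff_map, coeff_zero]
  by_cases hj : j = 0
  · rw [hj, h0, map_zero]
  · by_cases hj' : j ≤ G.natDegree
    · exact hy' _ (Finset.mem_image.2 ⟨j, Finset.mem_Icc.2 ⟨by omega, hj'⟩, rfl⟩)
    · rw [coeff_eq_zero_of_natDegree_lt (by omega), map_zero]

end Core

section Strict

variable {k : Type u} {K : Type v} [Field k] [Field K] [Algebra k K] [IsAlgClosed K] {m : ℕ}

/-- the polynomial `c + ∑ y_j τ^(j+1)` -/
noncomputable def ser {R : Type*} [CommRing R] {n : ℕ} (c : R) (y : Fin n → R) : R[X] :=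
  C c + ∑ j : Fin n, C (y j) * X ^ (j.1 + 1)

lemma ser_natDegree {R : Type*} [CommRing R] {n : ℕ} (c : R) (y : Fin n → R) :
    (ser c y).natDegree ≤ n := by
  unfold ser
  refine (natDegree_add_le _ _).trans (max_le (by simp) ?_)
  refine natDegree_sum_le_of_forall_le _ _ (fun j _ => ?_)
  exact (natDegree_C_mul_X_pow_le _ _).trans (by omega)

lemma ser_eval {R : Type*} [CommRing R] {n : ℕ} (c : R) (y : Fin n → R) :
    (ser c y).eval 0 = c := by
  unfold ser
  simp [eval_finsetSum]

lemma ser_map {R S : Type*} [CommRing R] [CommRing S] (f : R →+* S) {n : ℕ} (c : R)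
    (y : Fin n → R) : (ser c y).map f = ser (f c) (fun j => f (y j)) := by
  unfold ser
  simp [Polynomial.map_sum]

lemma ser_zero {R : Type*} [CommRing R] {n : ℕ} (c : R) : ser c (fun _ : Fin n => (0 : R)) = C c := by
  unfold ser
  simp

lemma ser_coeff {R : Type*} [CommRing R] {n : ℕ} (c : R) (y : Fin n → R) (j : Fin n) :
    (ser c y).coeff (j.1 + 1) = y j := by
  unfold ser
  rw [coeff_add, coeff_C_succ, zero_add, finsetSum_coeff, Finset.sum_eq_single j]
  · simp
  · intro b _ hb
    rw [coeff_C_mul_X_pow, if_neg]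
    intro h
    exact hb (Fin.ext (by omega))
  · intro h
    exact absurd (Finset.mem_univ _) h

lemma ser_natDegree_eq_zero {R : Type*} [CommRing R] {n : ℕ} (c : R) (y : Fin n → R)
    (h : (ser c y).natDegree = 0) (j : Fin n) : y j = 0 := by
  rw [← ser_coeff c y j]
  exact coeff_eq_zero_of_natDegree_lt (by omega)

lemma map_aeval_mv {R S : Type*} [CommRing R] [CommRing S] [Algebra k R] [Algebra k S]
    (f : R →+* S) (hf : ∀ a : k, f (algebraMap k R a) = algebraMap k S a)
    (F : MvPolynomial (Fin m) k) (𝒳 : Fin m → R[X]) :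
    (MvPolynomial.aeval 𝒳 F).map f = MvPolynomial.aeval (fun i => (𝒳 i).map f) F := by
  rw [MvPolynomial.aeval_def, MvPolynomial.aeval_def, ← coe_mapRingHom, MvPolynomial.hom_eval₂]
  congr 1
  ext a
  · have h1 : algebraMap k R[X] a = C (algebraMap k R a) := rfl
    have h2 : algebraMap k S[X] a = C (algebraMap k S a) := rfl
    rw [RingHom.comp_apply, h1, h2, coe_mapRingHom, map_C, hf]

lemma eval_aeval_mv {R : Type*} [CommRing R] [Algebra k R]
    (F : MvPolynomial (Fin m) k) (𝒳 : Fin m → R[X]) (c : R) :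
    (MvPolynomial.aeval 𝒳 F).eval c = MvPolynomial.aeval (fun i => (𝒳 i).eval c) F := by
  rw [MvPolynomial.aeval_def, MvPolynomial.aeval_def, ← coe_evalRingHom, MvPolynomial.hom_eval₂]
  congr 1
  ext a
  · have h1 : algebraMap k R[X] a = C (algebraMap k R a) := rfl
    rw [RingHom.comp_apply, h1, coe_evalRingHom, eval_C]

/-- Through every point of a hypersurface of weighted degree less than the sum of the weights there
is a nonconstant polynomial arc. -/
theorem arc_strict (F : MvPolynomial (Fin m) k) (w : Fin m → ℕ)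
    (hw : MvPolynomial.weightedTotalDegree w F < ∑ i, w i) (ξ : Fin m → K)
    (hξ : MvPolynomial.aeval ξ F = 0) :
    ∃ 𝒳 : Fin m → K[X], (∀ i, (𝒳 i).eval 0 = ξ i) ∧ MvPolynomial.aeval 𝒳 F = 0 ∧
      ∃ i, (𝒳 i).natDegree ≠ 0 := by
  classical
  let ι := Σ i : Fin m, Fin (w i)
  let R := MvPolynomial ι K
  let 𝒴 : Fin m → R[X] := fun i => ser (MvPolynomial.C (ξ i)) (fun j => MvPolynomial.X ⟨i, j⟩)
  have hcard : Fintype.card ι = ∑ i, w i := by
    simp [ι, Fintype.card_sigma]
  have halg : ∀ a : k, algebraMap k R a = MvPolynomial.C (algebraMap k K a) := fun a => rfl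
  obtain ⟨y, hy, hy'⟩ := exists_map_eq_zero (K := K) (ι := ι) (MvPolynomial.aeval 𝒴 F)
    (by
      rw [hcard]
      exact lt_of_le_of_lt (natDegree_aeval_le F w 𝒴 (fun i => ser_natDegree _ _)) hw)
    (by
      rw [coeff_zero_eq_eval_zero, eval_aeval_mv]
      simp only [𝒴, ser_eval]
      have h := MvPolynomial.aeval_algebraMap_apply (R := k) (A := K) R ξ F
      have h2 : (algebraMap K R) = MvPolynomial.C := rfl
      rw [h2] at h
      rw [hξ, map_zero] at h
      exact h)
    (by
      rw [map_aeval_mv (k := k) (MvPolynomial.constantCoeff : MvPolynomial ι K →+* K)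
        (fun a => by
          have h : algebraMap k (MvPolynomial ι K) a = MvPolynomial.C (algebraMap k K a) := rfl
          rw [h, MvPolynomial.constantCoeff_C]) F 𝒴]
      simp only [𝒴, ser_map, MvPolynomial.constantCoeff_C, MvPolynomial.constantCoeff_X, ser_zero]
      have h := MvPolynomial.aeval_algebraMap_apply (R := k) (A := K) K[X] ξ F
      have h2 : (algebraMap K K[X]) = C := rfl
      rw [h2] at h
      rw [hξ, map_zero] at h
      exact h)
  refine ⟨fun i => ser (ξ i) (fun j => y ⟨i, j⟩), fun i => ser_eval _ _, ?_, ?_⟩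
  · rw [map_aeval_mv _ (fun a => by
        rw [halg]
        exact (MvPolynomial.aeval_C _ _).trans rfl)] at hy'
    rw [← hy']
    congr 2
    ext i
    simp only [𝒴, ser_map]
    congr 2
    · exact ((MvPolynomial.aeval_C y (ξ i)).trans rfl).symm
    · ext j
      exact (MvPolynomial.aeval_X y _).symm
  · by_contra hcon
    push Not at hcon
    apply hy
    ext ⟨i, j⟩
    exact ser_natDegree_eq_zero _ _ (hcon i) j

end Strict

end Pool.Agent.UQ
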