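import Mathlib

/-!
# A valuation ring centred at a good point
-/

namespace Pool.Agent.UQ

open Polynomial

universe u

variable {k : Type*} {L : Type*} {E : Type u} [Field k] [Field L] [Field E] [Algebra k L]
  [Algebra L E] [Algebra k E] [IsScalarTower k L E]

lemma exists_point (a : L[X]) (ha : a ≠ 0) : ∃ c : AlgebraicClosure L, IsAlgebraic k c ∧
    aeval c a ≠ 0 := by
  classical
  let Ω := AlgebraicClosure L
  let f : AlgebraicClosure k →ₐ[k] Ω := IsAlgClosed.lift
  by_contra hcon
  push Not at hcon
  have h1 : (Set.range f).Infinite := Set.infinite_range_of_injective f.injective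
  apply h1
  refine Set.Finite.subset ((a.map (algebraMap L Ω)).roots.toFinset.finite_toSet) ?_
  rintro _ ⟨b, rfl⟩
  have h2 : IsAlgebraic k (f b) := (isAlgebraic_algHom_iff f f.injective).2 (Algebra.IsAlgebraic.isAlgebraic (R := k) b)
  have h3 := hcon (f b) h2
  simp only [Finset.mem_coe, Multiset.mem_toFinset]
  rw [mem_roots']
  refine ⟨(Polynomial.map_ne_zero_iff (algebraMap L Ω).injective).2 ha, ?_⟩
  rw [IsRoot, eval_map_algebraMap]
  exact h3

theorem exists_val (u : E) (hu : Transcendental L u)
    (halg : Algebra.IsAlgebraic (Algebra.adjoin L {u}) E) (S₀ : Finset E) :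
    ∃ V : ValuationSubring E, (∀ a : L, algebraMap L E a ∈ V) ∧ (∀ s ∈ S₀, s ∈ V) ∧
      ∃ P : k[X], P ≠ 0 ∧ aeval u P ∈ V.nonunits := by
  classical
  obtain ⟨y, hy, hyz⟩ := Algebra.IsAlgebraic.exists_integral_multiples
    (R := Algebra.adjoin L {u}) (A := E) S₀
  obtain ⟨a, ha⟩ : ∃ a : L[X], aeval u a = (y : E) := by
    have h : (y : E) ∈ (aeval u : L[X] →ₐ[L] E).range := by
      rw [← Algebra.adjoin_singleton_eq_range_aeval]
      exact y.2
    exact h
  have ha0 : a ≠ 0 := by
    rintro rfl
    apply hy
    apply Subtype.ext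
    rw [← ha, map_zero]
    rfl
  obtain ⟨c, hc, hac⟩ := exists_point (k := k) a ha0
  have hcL : IsIntegral L c := Algebra.IsIntegral.isIntegral c
  have hck : IsIntegral k c := hc.isIntegral
  let m := minpoly L c
  have hmirr : Irreducible m := minpoly.irreducible hcL
  have hmu : aeval u m ∈ Algebra.adjoin L {u} := by
    rw [Algebra.adjoin_singleton_eq_range_aeval]
    exact ⟨m, rfl⟩
  let A₀ : Subring E := (Algebra.adjoin L {u}).toSubring
  let I : Ideal A₀ := Ideal.span {(⟨aeval u m, hmu⟩ : A₀)}
  have hI : I ≠ ⊤ := by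
    intro h
    rw [Ideal.span_singleton_eq_top] at h
    obtain ⟨b, hb⟩ := h.exists_right_inv
    obtain ⟨f, hf⟩ : ∃ f : L[X], aeval u f = (b : E) := by
      have h2 : (b : E) ∈ (aeval u : L[X] →ₐ[L] E).range := by
        rw [← Algebra.adjoin_singleton_eq_range_aeval]
        exact b.2
      exact h2
    have h3 : aeval u (m * f) = 1 := by
      rw [map_mul, hf]
      exact congrArg Subtype.val hb
    have h4 : m * f = 1 := by
      have h5 := (transcendental_iff_injective.1 hu)
      apply h5
      rw [h3, map_one]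
    exact hmirr.not_isUnit (IsUnit.of_mul_eq_one f h4)
  obtain ⟨V, hV, hIV⟩ := Ideal.image_subset_nonunits_valuationSubring I hI
  have hmem : ∀ f : L[X], aeval u f ∈ V := by
    intro f
    apply hV
    change aeval u f ∈ Algebra.adjoin L {u}
    rw [Algebra.adjoin_singleton_eq_range_aeval]
    exact ⟨f, rfl⟩
  have hL : ∀ b : L, algebraMap L E b ∈ V := by
    intro b
    have h := hmem (C b)
    rwa [aeval_C] at h
  have hmV : V.valuation (aeval u m) < 1 := by
    rw [← ValuationSubring.mem_nonunits_iff]
    exact hIV ⟨⟨aeval u m, hmu⟩, Ideal.subset_span rfl, rfl⟩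
  have hva : V.valuation (aeval u a) = 1 := by
    have hcop : IsCoprime m a := by
      rw [hmirr.coprime_iff_not_dvd]
      intro h
      exact hac ((minpoly.dvd_iff).1 h)
    obtain ⟨α, β, hαβ⟩ := hcop
    have h1 : aeval u β * aeval u a = 1 - aeval u α * aeval u m := by
      have h0 := congrArg (aeval u) hαβ
      rw [map_add, map_mul, map_mul, map_one] at h0
      linear_combination h0
    have h2 : V.valuation (aeval u α * aeval u m) < 1 := by
      rw [map_mul]
      exact lt_of_le_of_lt (mul_le_of_le_one_left' ((V.valuation_le_one_iff _).2 (hmem α))) hmV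
    have h3 : V.valuation (aeval u β * aeval u a) = 1 := by
      rw [h1]
      exact V.valuation.map_one_sub_of_lt h2
    rw [map_mul] at h3
    refine le_antisymm ((V.valuation_le_one_iff _).2 (hmem a)) ?_
    rw [← h3]
    exact mul_le_of_le_one_left' ((V.valuation_le_one_iff _).2 (hmem β))
  refine ⟨V, hL, ?_, minpoly k c, minpoly.ne_zero hck, ?_⟩
  · intro z hz
    have h1 := hyz z hz
    have h2 : IsIntegral V ((y : E) * z) := by
      let alg : Algebra (Algebra.adjoin L {u}) V := (Subring.inclusion hV).toAlgebra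
      have tow : IsScalarTower (Algebra.adjoin L {u}) V E :=
        IsScalarTower.of_algebraMap_eq (fun _ => rfl)
      exact IsIntegral.tower_top (R := Algebra.adjoin L {u}) h1
    obtain ⟨b, hb⟩ := IsIntegrallyClosed.isIntegral_iff.1 h2
    have h3 : (y : E) * z ∈ V := by
      rw [← hb]
      exact b.2
    rw [← V.valuation_le_one_iff] at h3 ⊢
    rwa [map_mul, ← ha, hva, one_mul] at h3
  · have h1 : m ∣ (minpoly k c).map (algebraMap k L) := minpoly.dvd_map_of_isScalarTower k L c
    obtain ⟨f, hf⟩ := h1
    have h2 : aeval u (minpoly k c) = aeval u m * aeval u f := by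
      rw [← map_mul, ← hf, aeval_map_algebraMap]
    rw [h2, ValuationSubring.mem_nonunits_iff, map_mul]
    exact lt_of_le_of_lt (mul_le_of_le_one_right' ((V.valuation_le_one_iff _).2 (hmem f))) hmV

end Pool.Agent.UQ
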