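import Pool.Agent.UQ.Trdeg
import Pool.Agent.UQ.Val

/-!
# Cutting down the parameter space: a transcendental parameter
-/

namespace Pool.Agent.UQ

open Polynomial

universe u

section

variable {k L M : Type u} [Field k] [Field L] [Field M] [Algebra k L] [Algebra k M]
  [Algebra L (RatFunc M)] [IsScalarTower k L (RatFunc M)]

lemma trdeg_one (hfin : Algebra.trdeg k L < Cardinal.aleph0)
    (hd : Algebra.trdeg k M = Algebra.trdeg k L) : Algebra.trdeg L (RatFunc M) = 1 := by
  have h1 := trdeg_add_eq k L (A := RatFunc M)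
  rw [trdeg_ratFunc, hd] at h1
  exact Cardinal.eq_of_add_eq_add_left h1 hfin

theorem exists_trans (hfin : Algebra.trdeg k L < Cardinal.aleph0)
    (hd : Algebra.trdeg k M = Algebra.trdeg k L) (S : Set M)
    (hS : IntermediateField.adjoin k S = ⊤) (a : L)
    (ha : Transcendental M (algebraMap L (RatFunc M) a)) :
    ∃ s ∈ S, Transcendental L (algebraMap M (RatFunc M) s) := by
  by_contra hcon
  push Not at hcon
  let N : IntermediateField L (RatFunc M) := algebraicClosure L (RatFunc M)
  let ι : M →ₐ[k] RatFunc M := IsScalarTower.toAlgHom k M (RatFunc M)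
  have hN : ∀ b : M, algebraMap M (RatFunc M) b ∈ N := by
    have h1 : (⊤ : IntermediateField k M) ≤ (N.restrictScalars k).comap ι := by
      rw [← hS, IntermediateField.adjoin_le_iff]
      intro s hs
      have h2 := hcon s hs
      rw [Transcendental, not_not] at h2
      exact mem_algebraicClosure_iff.2 h2
    intro b
    exact h1 (IntermediateField.mem_top (x := b))
  let algMN : Algebra M N := ((algebraMap M (RatFunc M)).codRestrict N hN).toAlgebra
  have tow1 : IsScalarTower M N (RatFunc M) := IsScalarTower.of_algebraMap_eq (fun _ => rfl)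
  have tow2 : IsScalarTower k M N := IsScalarTower.of_algebraMap_eq (fun b => by
    apply Subtype.ext
    exact (IsScalarTower.algebraMap_apply k M (RatFunc M) b))
  have h1 := trdeg_add_eq k L (A := N)
  have h2 : Algebra.trdeg L N = 0 := by
    rw [trdeg_eq_zero_iff]
    exact algebraicClosure.isAlgebraic L (RatFunc M)
  rw [h2, add_zero] at h1
  have h3 := trdeg_add_eq k M (A := N)
  have haN : algebraMap L (RatFunc M) a ∈ N := N.algebraMap_mem a
  have h4 : Algebra.Transcendental M N := by
    refine ⟨⟨⟨algebraMap L (RatFunc M) a, haN⟩, ?_⟩⟩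
    intro h
    apply ha
    exact h.algebraMap (A := RatFunc M)
  have h5 : 1 ≤ Algebra.trdeg M N := Cardinal.one_le_iff_pos.2 (trdeg_pos M N)
  rw [← h1, hd] at h3
  have h6 : Algebra.trdeg k L + 1 ≤ Algebra.trdeg k L := by
    calc Algebra.trdeg k L + 1 ≤ Algebra.trdeg k L + Algebra.trdeg M N := by gcongr
      _ = Algebra.trdeg k L := h3
  obtain ⟨n, hn⟩ := Cardinal.lt_aleph0.1 hfin
  rw [hn] at h6
  have h7 : n + 1 ≤ n := by exact_mod_cast h6
  omega

end

end Pool.Agent.UQ
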