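import Pool.Agent.UQ.Spec

/-!
# Embedding the function field of a hypersurface by an arc through the generic point
-/

namespace Pool.Agent.UQ

universe u v

section

variable {k : Type*} {L : Type*} {K : Type*} {A : Type*} {Q : Type*} [Field k] [Field L]
  [Algebra k L] [Field K] [Algebra k K] [CommRing A] [IsDomain A] [Algebra k A] [Field Q]
  [Algebra k Q] {m : ℕ}

theorem exists_embedding (ξ : Fin m → L) (hgen : IntermediateField.adjoin k (Set.range ξ) = ⊤)
    (htr : (m : Cardinal) ≤ Algebra.trdeg k L + 1) (F : MvPolynomial (Fin m) k) (hF : F ≠ 0)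
    (h0 : MvPolynomial.aeval ξ F = 0) (j : L →ₐ[k] K) (π : A →ₐ[k] K) (𝒳 : Fin m → A)
    (hπ : ∀ i, π (𝒳 i) = j (ξ i)) (hX0 : MvPolynomial.aeval 𝒳 F = 0) (ψ : A →ₐ[k] Q)
    (hψ : Function.Injective ψ) : ∃ i : L →ₐ[k] Q, ∀ n, i (ξ n) = ψ (𝒳 n) := by
  classical
  obtain ⟨i₀, hi₀⟩ := exists_index ξ hgen htr F hF h0
  have hi1 : AlgebraicIndependent k (fun i : {i : Fin m // i ≠ i₀} => π (𝒳 i)) := by
    have h := hi₀.map' (f := j) j.injective
    have h2 : (j ∘ fun i : {i : Fin m // i ≠ i₀} => ξ i) =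
        fun i : {i : Fin m // i ≠ i₀} => π (𝒳 i) := by
      ext i
      simp [hπ]
    rwa [h2] at h
  have hjG : ∀ G : MvPolynomial (Fin m) k,
      MvPolynomial.aeval (fun i => π (𝒳 i)) G = j (MvPolynomial.aeval ξ G) := by
    intro G
    rw [← AlgHom.comp_apply, MvPolynomial.comp_aeval]
    simp only [hπ]
  have hker : ∀ G : MvPolynomial (Fin m) k,
      MvPolynomial.aeval ξ G = 0 ↔ MvPolynomial.aeval 𝒳 G = 0 := by
    intro G
    constructor
    · intro h
      exact spec π 𝒳 F hF hX0 i₀ hi1 G (by rw [hjG, h, map_zero])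
    · intro h
      have h2 : j (MvPolynomial.aeval ξ G) = j 0 := by
        rw [← hjG, map_zero, ← MvPolynomial.comp_aeval_apply, h, map_zero]
      exact j.injective h2
  let f : MvPolynomial (Fin m) k →ₐ[k] L := MvPolynomial.aeval ξ
  let B := f.range
  let g : MvPolynomial (Fin m) k →ₐ[k] Q := ψ.comp (MvPolynomial.aeval 𝒳)
  have hle : RingHom.ker f.rangeRestrict ≤ RingHom.ker g := by
    intro G hG
    rw [RingHom.mem_ker] at hG ⊢
    have h1 : MvPolynomial.aeval ξ G = 0 := congrArg Subtype.val hG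
    have h2 := (hker G).1 h1
    change ψ (MvPolynomial.aeval 𝒳 G) = 0
    rw [h2, map_zero]
  let e := Ideal.quotientKerAlgEquivOfSurjective f.rangeRestrict_surjective
  let g' : B →ₐ[k] Q := (Ideal.Quotient.liftₐ (RingHom.ker f.rangeRestrict) g
    (fun a ha => hle ha)).comp e.symm.toAlgHom
  have hg' : ∀ G, g' (f.rangeRestrict G) = ψ (MvPolynomial.aeval 𝒳 G) := by
    intro G
    have h1 : e.symm (f.rangeRestrict G) = Ideal.Quotient.mk _ G := by
      rw [AlgEquiv.symm_apply_eq]
      rfl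
    change (Ideal.Quotient.liftₐ (RingHom.ker f.rangeRestrict) g
      (fun a ha => hle ha)) (e.symm (f.rangeRestrict G)) = _
    rw [h1]
    rfl
  have hinj : Function.Injective g' := by
    rw [injective_iff_map_eq_zero]
    intro b hb
    obtain ⟨G, rfl⟩ := f.rangeRestrict_surjective b
    rw [hg'] at hb
    have h1 : MvPolynomial.aeval 𝒳 G = 0 := hψ (by rw [hb, map_zero])
    exact Subtype.ext ((hker G).2 h1)
  have hfrac : IsFractionRing B L := by
    refine IsFractionRing.of_field B L (fun z => ?_)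
    have hz : z ∈ IntermediateField.adjoin k (Set.range ξ) := by
      rw [hgen]
      exact IntermediateField.mem_top
    obtain ⟨r, hr, s, hs, rfl⟩ := IntermediateField.mem_adjoin_iff_div.1 hz
    rw [Algebra.adjoin_range_eq_range_aeval] at hr hs
    exact ⟨⟨r, hr⟩, ⟨s, hs⟩, rfl⟩
  refine ⟨IsFractionRing.liftAlgHom (K := L) hinj, fun n => ?_⟩
  rw [IsFractionRing.liftAlgHom_apply]
  have h1 : ξ n = algebraMap B L (f.rangeRestrict (MvPolynomial.X n)) := by
    change ξ n = MvPolynomial.aeval ξ (MvPolynomial.X n)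
    rw [MvPolynomial.aeval_X]
  rw [h1, IsFractionRing.lift_algebraMap]
  change g' (f.rangeRestrict (MvPolynomial.X n)) = _
  rw [hg', MvPolynomial.aeval_X]

end

end Pool.Agent.UQ
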