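import Pool.Agent.UQ.Gen
import Pool.Agent.UQ.Fix

/-!
# The quotients `(X × D) / G` of low weighted degree are uniruled
-/

namespace Pool.Agent.UQ

open Polynomial

universe u

theorem main (k K : Type u) [Field k] [Field K] [Algebra k K]
    (P : MvPolynomial (Fin 3) k) (hP : P ≠ 0) (φ : k[X]) (g : MvPolynomial (Fin 2) k)
    (x y z u v w s : K) (hX : MvPolynomial.aeval ![x, y, aeval z φ] P = 0)
    (hD : Twist φ g z u v w s)
    (hK : IntermediateField.adjoin k {x, y, z, u, v} = ⊤) (h3 : Algebra.trdeg k K = 3)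
    (r₁ r₂ : MvPolynomial (Fin 2) k) (hr₁ : MvPolynomial.aeval ![x, y] r₁ ≠ 0)
    (hr₂ : MvPolynomial.aeval ![x, y] r₂ ≠ 0) (F : MvPolynomial (Fin 4) k)
    (hF : scale r₁ r₂ F = total P g) (ω : Fin 4 → ℕ)
    (hω : MvPolynomial.weightedTotalDegree ω F < ∑ i, ω i ∨
      ((2 : k) ≠ 0 ∧ ∃ i H, i ∉ H.vars ∧ F = MvPolynomial.X i ^ 2 - H ∧ 0 < ω i ∧
        MvPolynomial.weightedTotalDegree ω H ≤ 2 * ω i ∧ 2 * ω i ≤ ∑ i, ω i)) :
    Uniruled k (IntermediateField.adjoin k {x, y, w, s}) ∧
      ∀ G : Subgroup (K ≃ₐ[k] K), Nat.card G = φ.natDegree →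
        (∀ σ ∈ G, σ x = x ∧ σ y = y ∧ σ w = w ∧ σ s = s) →
          IntermediateField.fixedField G = IntermediateField.adjoin k {x, y, w, s} := by
  set L := IntermediateField.adjoin k {x, y, w, s} with hL
  have hx : x ∈ L := IntermediateField.subset_adjoin _ _ (by simp)
  have hy : y ∈ L := IntermediateField.subset_adjoin _ _ (by simp)
  have hw : w ∈ L := IntermediateField.subset_adjoin _ _ (by simp)
  have hs : s ∈ L := IntermediateField.subset_adjoin _ _ (by simp)
  have hφ := hD.natDegree_pos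
  have hmem : ∀ E : IntermediateField k K, z ∈ E → L ≤ E → u ∈ E ∧ v ∈ E :=
    fun E hz hE => hD.mem E hz (hE hw) (hE hs)
  have haev : ∀ (a b : K) (ha : a ∈ L) (hb : b ∈ L) (q : MvPolynomial (Fin 2) k),
      MvPolynomial.aeval ![a, b] q ∈ L := by
    intro a b ha hb q
    have h1 : MvPolynomial.aeval ![a, b] q =
        ((MvPolynomial.aeval (![⟨a, ha⟩, ⟨b, hb⟩] : Fin 2 → L) q : L) : K) := by
      symm
      refine (MvPolynomial.comp_aeval_apply _ L.val q).trans ?_
      congr 2
      ext i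
      fin_cases i <;> rfl
    rw [h1]
    exact Subtype.prop _
  set ρ₁ := MvPolynomial.aeval ![x, y] r₁ with hρ₁
  set ρ₂ := MvPolynomial.aeval ![x, y] r₂ with hρ₂
  have hρ₁L : ρ₁ ∈ L := haev x y hx hy r₁
  have hρ₂L : ρ₂ ∈ L := haev x y hx hy r₂
  let ξ : Fin 4 → K := ![x, y, ρ₁ * w, ρ₂ * s]
  have hξ : ∀ i, ξ i ∈ L := by
    intro i
    fin_cases i
    · exact hx
    · exact hy
    · exact mul_mem hρ₁L hw
    · exact mul_mem hρ₂L hs
  let ξ' : Fin 4 → L := fun i => ⟨ξ i, hξ i⟩
  have hval' : ∀ p : MvPolynomial (Fin 4) k,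
      ((MvPolynomial.aeval ξ' p : L) : K) = MvPolynomial.aeval ξ p := by
    intro p
    exact (MvPolynomial.comp_aeval_apply ξ' L.val p)
  have hval : aeval z φ ∈ L := by
    rw [← hD.value]
    exact haev w s hw hs g
  have hgen : IntermediateField.adjoin k (Set.range ξ') = ⊤ := by
    apply adjoin_self_eq_top ξ L _ hξ
    apply le_antisymm
    · rw [hL, IntermediateField.adjoin_le_iff]
      have h1 : ∀ i, ξ i ∈ IntermediateField.adjoin k (Set.range ξ) :=
        fun i => IntermediateField.subset_adjoin k _ ⟨i, rfl⟩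
      have hx' : x ∈ IntermediateField.adjoin k (Set.range ξ) := h1 0
      have hy' : y ∈ IntermediateField.adjoin k (Set.range ξ) := h1 1
      have h3' : ∀ q : MvPolynomial (Fin 2) k,
          MvPolynomial.aeval ![x, y] q ∈ IntermediateField.adjoin k (Set.range ξ) := by
        intro q
        have h4 : MvPolynomial.aeval ![x, y] q ∈ Algebra.adjoin k (Set.range ![x, y]) := by
          rw [Algebra.adjoin_range_eq_range_aeval]
          exact ⟨q, rfl⟩
        refine (Algebra.adjoin_le (S := (IntermediateField.adjoin k (Set.range ξ)).toSubalgebra)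
          ?_) h4
        rintro _ ⟨i, rfl⟩
        fin_cases i
        · exact hx'
        · exact hy'
      rintro a (rfl | rfl | rfl | rfl)
      · exact hx'
      · exact hy'
      · have h5 : a = (ρ₁ * a) / ρ₁ := by
          field_simp
        rw [h5]
        exact div_mem (h1 2) (h3' r₁)
      · have h5 : a = (ρ₂ * a) / ρ₂ := by
          field_simp
        rw [h5]
        exact div_mem (h1 3) (h3' r₂)
    · rw [IntermediateField.adjoin_le_iff]
      rintro _ ⟨i, rfl⟩
      exact hξ i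
  have htr : Algebra.trdeg k L = 3 := by
    rw [trdeg_L φ x y z u v L hK hx hy hmem hφ hval, h3]
  have htr' : ((4 : ℕ) : Cardinal) ≤ Algebra.trdeg k L + 1 := by
    rw [htr]
    norm_num
  have hfin : Algebra.trdeg k L < Cardinal.aleph0 := by
    rw [htr]
    exact_mod_cast Cardinal.natCast_lt_aleph0 (n := 3)
  have hF0 : F ≠ 0 := by
    intro h
    apply total_ne_zero P hP g hD.nonconst
    rw [← hF, h]
    exact map_zero _
  have h0 : MvPolynomial.aeval ξ' F = 0 := by
    apply Subtype.ext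
    rw [hval']
    have h1 := aeval_scale r₁ r₂ F x y w s
    rw [hF, aeval_total, hD.value, hX] at h1
    exact h1.symm
  refine ⟨?_, ?_⟩
  · rcases hω with hω | ⟨h2, i, H, hi, hH, hi0, hdeg, hsum⟩
    · exact uniruled_strict ξ' hgen hfin htr' F hF0 h0 ω hω
    · refine uniruled_square h2 ξ' hgen hfin htr' i H hi ?_ ω hi0 hdeg hsum
      rw [hH, map_sub, map_pow, MvPolynomial.aeval_X, sub_eq_zero] at h0
      exact h0
  · intro G hG hfix
    refine fixed φ x y z u v L hK hx hy hmem hφ hval G hG ?_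
    rw [hL, IntermediateField.adjoin_le_iff]
    rintro a (rfl | rfl | rfl | rfl)
    · exact (IntermediateField.mem_fixedField_iff _ _).2 (fun σ hσ => (hfix σ hσ).1)
    · exact (IntermediateField.mem_fixedField_iff _ _).2 (fun σ hσ => (hfix σ hσ).2.1)
    · exact (IntermediateField.mem_fixedField_iff _ _).2 (fun σ hσ => (hfix σ hσ).2.2.1)
    · exact (IntermediateField.mem_fixedField_iff _ _).2 (fun σ hσ => (hfix σ hσ).2.2.2)

end Pool.Agent.UQ
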