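import Pool.Agent.UQ.Defs

/-!
# The quotient `(X × D) / G`: its equation and its function field
-/

namespace Pool.Agent.UQ

open Polynomial

universe u

section Total

variable {k : Type u} [Field k]

lemma aeval_total {A : Type*} [CommRing A] [Algebra k A] (P : MvPolynomial (Fin 3) k)
    (g : MvPolynomial (Fin 2) k) (x y w s : A) :
    MvPolynomial.aeval ![x, y, w, s] (total P g) =
      MvPolynomial.aeval ![x, y, MvPolynomial.aeval ![w, s] g] P := by
  unfold total
  rw [MvPolynomial.aeval_bind₁]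
  congr 2
  ext i
  fin_cases i
  · simp
  · simp
  · simp only [Fin.reduceFinMk, Matrix.cons_val]
    rw [MvPolynomial.aeval_rename]
    congr 2
    ext j
    fin_cases j <;> simp

lemma aeval_scale {A : Type*} [CommRing A] [Algebra k A] (r₁ r₂ : MvPolynomial (Fin 2) k)
    (F : MvPolynomial (Fin 4) k) (x y w s : A) :
    MvPolynomial.aeval ![x, y, w, s] (scale r₁ r₂ F) =
      MvPolynomial.aeval ![x, y, MvPolynomial.aeval ![x, y] r₁ * w,
        MvPolynomial.aeval ![x, y] r₂ * s] F := by
  have hr : ∀ r : MvPolynomial (Fin 2) k,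
      MvPolynomial.aeval ![x, y, w, s] (MvPolynomial.rename ![0, 1] r) =
        MvPolynomial.aeval ![x, y] r := by
    intro r
    rw [MvPolynomial.aeval_rename]
    congr 2
    ext j
    fin_cases j <;> simp
  unfold scale
  rw [MvPolynomial.aeval_bind₁]
  congr 2
  ext i
  fin_cases i
  · simp
  · simp
  · simp only [Fin.reduceFinMk, Matrix.cons_val]
    rw [map_mul, hr, MvPolynomial.aeval_X]
    simp
  · simp only [Fin.reduceFinMk, Matrix.cons_val]
    rw [map_mul, hr, MvPolynomial.aeval_X]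
    simp

lemma exists_value {Ω : Type u} [Field Ω] [IsAlgClosed Ω] (g : MvPolynomial (Fin 2) Ω)
    (hg : ∀ c, g ≠ MvPolynomial.C c) (c : Ω) : ∃ p : Fin 2 → Ω, MvPolynomial.aeval p g = c := by
  by_contra hcon
  push Not at hcon
  have h1 : MvPolynomial.zeroLocus Ω (Ideal.span {g - MvPolynomial.C c}) = ∅ := by
    rw [MvPolynomial.zeroLocus_span]
    ext p
    simp only [Set.mem_singleton_iff, forall_eq, Set.mem_empty_iff_false, iff_false]
    intro h
    apply hcon p
    have h2 : MvPolynomial.aeval p (g - MvPolynomial.C c) = 0 := h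
    rw [map_sub, MvPolynomial.aeval_C] at h2
    exact sub_eq_zero.1 h2
  have h2 := MvPolynomial.vanishingIdeal_zeroLocus_eq_radical (K := Ω)
    (Ideal.span {g - MvPolynomial.C c})
  rw [h1, MvPolynomial.vanishingIdeal_empty] at h2
  have h3 := Ideal.radical_eq_top.1 h2.symm
  rw [Ideal.span_singleton_eq_top, MvPolynomial.isUnit_iff_eq_C_of_isReduced] at h3
  obtain ⟨r, _, hr⟩ := h3
  apply hg (r + c)
  rw [map_add, ← hr]
  ring

lemma total_ne_zero (P : MvPolynomial (Fin 3) k) (hP : P ≠ 0) (g : MvPolynomial (Fin 2) k)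
    (hg : ∀ c, g ≠ MvPolynomial.C c) : total P g ≠ 0 := by
  intro h
  let Ω := AlgebraicClosure k
  have hg' : ∀ c : Ω, MvPolynomial.map (algebraMap k Ω) g ≠ MvPolynomial.C c := by
    intro c hc
    apply hg (MvPolynomial.coeff 0 g)
    ext d
    have h1 := congrArg (MvPolynomial.coeff d) hc
    rw [MvPolynomial.coeff_map, MvPolynomial.coeff_C] at h1
    rw [MvPolynomial.coeff_C]
    by_cases hd : 0 = d
    · subst hd
      simp
    · rw [if_neg hd] at h1 ⊢
      exact (algebraMap k Ω).injective (by rw [h1, map_zero])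
  apply hP
  apply MvPolynomial.map_injective (algebraMap k Ω) (algebraMap k Ω).injective
  rw [map_zero]
  apply MvPolynomial.funext
  intro q
  obtain ⟨p, hp⟩ := exists_value _ hg' (q 2)
  rw [MvPolynomial.aeval_map_algebraMap] at hp
  have h2 := aeval_total P g (q 0) (q 1) (p 0) (p 1)
  have h3 : (![p 0, p 1] : Fin 2 → Ω) = p := by
    ext i
    fin_cases i <;> rfl
  rw [h, map_zero, h3, hp] at h2
  have h4 : (![q 0, q 1, q 2] : Fin 3 → Ω) = q := by
    ext i
    fin_cases i <;> rfl
  rw [h4] at h2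
  rw [map_zero, MvPolynomial.eval_map]
  exact h2.symm

end Total

section Twist

variable {k K : Type u} [Field k] [Field K] [Algebra k K]

lemma aeval_weighted {σ : Type*} [Fintype σ] {A : Type*} [CommRing A] [Algebra k A]
    (g : MvPolynomial σ k) (w : σ → ℕ)
    (n : ℕ) (hg : g.IsWeightedHomogeneous w n) (z : A) (f : σ → A) :
    MvPolynomial.aeval (fun i => z ^ w i * f i) g = z ^ n * MvPolynomial.aeval f g := by
  rw [MvPolynomial.aeval_def, MvPolynomial.aeval_def, MvPolynomial.eval₂_eq',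
    MvPolynomial.eval₂_eq', Finset.mul_sum]
  refine Finset.sum_congr rfl (fun d hd => ?_)
  have h1 := hg (MvPolynomial.mem_support_iff.1 hd)
  rw [Finsupp.weight_apply, Finsupp.sum_fintype _ _ (by simp)] at h1
  have h2 : ∏ i, (z ^ w i * f i) ^ d i = z ^ n * ∏ i, f i ^ d i := by
    rw [← h1, ← Finset.prod_pow_eq_pow_sum, ← Finset.prod_mul_distrib]
    refine Finset.prod_congr rfl (fun i _ => ?_)
    rw [mul_pow, smul_eq_mul, ← pow_mul, mul_comm (w i)]
  rw [h2]
  ring

lemma AddPoly.zero {φ : k[X]} (h : AddPoly φ) : aeval (0 : k) φ = 0 := by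
  have h1 := h k 0 0
  rw [add_zero] at h1
  exact left_eq_add.1 h1

lemma AddPoly.natDegree_pos {φ : k[X]} (h : AddPoly φ) (h0 : φ ≠ 0) : 0 < φ.natDegree := by
  rw [Nat.pos_iff_ne_zero]
  intro h1
  rw [eq_C_of_natDegree_eq_zero h1] at h h0
  have h2 := h.zero
  rw [aeval_C] at h2
  apply h0
  rw [C_eq_zero]
  exact h2

lemma Twist.natDegree_pos {φ : k[X]} {g : MvPolynomial (Fin 2) k} {z u v w s : K}
    (h : Twist φ g z u v w s) : 0 < φ.natDegree := by
  rcases h with ⟨n, a, b, hn, rfl, _⟩ | ⟨h1, h2, _⟩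
  · rwa [natDegree_X_pow]
  · exact h1.natDegree_pos h2

lemma Twist.nonconst {φ : k[X]} {g : MvPolynomial (Fin 2) k} {z u v w s : K}
    (h : Twist φ g z u v w s) (c : k) : g ≠ MvPolynomial.C c := by
  intro hc
  rcases h with ⟨n, a, b, hn, _, hg, _, hD, _⟩ | ⟨h1, h2, e, he, _⟩
  · rw [hc] at hg hD
    rw [MvPolynomial.aeval_C] at hD
    have hc0 : c ≠ 0 := by
      intro h0
      rw [h0, map_zero] at hD
      exact zero_ne_one hD
    have h3 := hg (d := 0) (by rw [MvPolynomial.coeff_C, if_pos rfl]; exact hc0)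
    rw [map_zero] at h3
    omega
  · have h3 := congrArg (MvPolynomial.aeval (![X, 0] : Fin 2 → k[X])) (he.symm.trans hc)
    rw [map_add, MvPolynomial.aeval_C, ← Polynomial.aeval_algHom_apply,
      ← Polynomial.aeval_algHom_apply, MvPolynomial.aeval_X, MvPolynomial.aeval_X] at h3
    simp only [Matrix.cons_val_zero, Matrix.cons_val_one] at h3
    rw [aeval_X_left_apply] at h3
    have h4 : aeval (0 : k[X]) e = C (e.eval 0) := by
      have := Polynomial.aeval_algebraMap_apply (k[X]) (0 : k) e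
      rw [map_zero] at this
      rw [this, Polynomial.coe_aeval_eq_eval]
      rfl
    rw [h4] at h3
    have h5 : φ = C (c - e.eval 0) := by
      rw [C_sub]
      exact eq_sub_of_add_eq h3
    have h6 := h1.natDegree_pos h2
    rw [h5, natDegree_C] at h6
    exact lt_irrefl _ h6

lemma Twist.value {φ : k[X]} {g : MvPolynomial (Fin 2) k} {z u v w s : K}
    (h : Twist φ g z u v w s) : MvPolynomial.aeval ![w, s] g = aeval z φ := by
  rcases h with ⟨n, a, b, hn, rfl, hg, _, hD, rfl, rfl⟩ | ⟨h1, h2, e, rfl, hD, rfl, rfl⟩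
  · have h3 := aeval_weighted g ![a, b] n hg z ![u, v]
    rw [hD, mul_one] at h3
    rw [map_pow, aeval_X, ← h3]
    congr 2
    ext i
    fin_cases i <;> simp
  · rw [map_add, ← Polynomial.aeval_algHom_apply, ← Polynomial.aeval_algHom_apply,
      MvPolynomial.aeval_X, MvPolynomial.aeval_X]
    simp only [Matrix.cons_val_zero, Matrix.cons_val_one]
    rw [← hD, ← h1 K]
    ring_nf

lemma Twist.mem {φ : k[X]} {g : MvPolynomial (Fin 2) k} {z u v w s : K}
    (h : Twist φ g z u v w s) (E : IntermediateField k K) (hz : z ∈ E) (hw : w ∈ E) (hs : s ∈ E) :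
    u ∈ E ∧ v ∈ E := by
  rcases h with ⟨n, a, b, hn, rfl, hg, hz0, hD, rfl, rfl⟩ | ⟨h1, h2, e, rfl, hD, rfl, rfl⟩
  · constructor
    · have h1 : u = z ^ a * u / z ^ a := by
        field_simp
      rw [h1]
      exact div_mem hw (pow_mem hz a)
    · have h1 : v = z ^ b * v / z ^ b := by
        field_simp
      rw [h1]
      exact div_mem hs (pow_mem hz b)
  · refine ⟨?_, hs⟩
    have h3 : u = z - (z - u) := by ring
    rw [h3]
    exact sub_mem hz hw

end Twist

end Pool.Agent.UQ
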