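import Mathlib

/-!
# Generic points of hypersurfaces and specializations
-/

namespace Pool.Agent.UQ

universe u v

section Index

variable {k : Type u} {L : Type v} [Field k] [Field L] [Algebra k L] {m : ℕ}

lemma exists_index (ξ : Fin m → L) (hgen : IntermediateField.adjoin k (Set.range ξ) = ⊤)
    (htr : (m : Cardinal) ≤ Algebra.trdeg k L + 1) (F : MvPolynomial (Fin m) k) (hF : F ≠ 0)
    (h0 : MvPolynomial.aeval ξ F = 0) :
    ∃ i₀ : Fin m, AlgebraicIndependent k (fun i : {i : Fin m // i ≠ i₀} => ξ i) := by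
  classical
  have halg : Algebra.IsAlgebraic (Algebra.adjoin k (Set.range ξ)) L := by
    constructor
    intro a
    have ha : a ∈ IntermediateField.adjoin k (Set.range ξ) := by
      rw [hgen]
      exact IntermediateField.mem_top
    obtain ⟨r, hr, s, hs, rfl⟩ := IntermediateField.mem_adjoin_iff_div.1 ha
    have h1 : IsAlgebraic (Algebra.adjoin k (Set.range ξ)) r :=
      isAlgebraic_algebraMap (⟨r, hr⟩ : Algebra.adjoin k (Set.range ξ))
    have h2 : IsAlgebraic (Algebra.adjoin k (Set.range ξ)) s :=
      isAlgebraic_algebraMap (⟨s, hs⟩ : Algebra.adjoin k (Set.range ξ))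
    rw [div_eq_mul_inv]
    exact h1.mul h2.inv
  obtain ⟨t, ht, hb⟩ := exists_isTranscendenceBasis_subset (R := k) (Set.range ξ)
  have hcard := hb.cardinalMk_eq_trdeg
  choose f hf using fun b : t => ht b.2
  have hfinj : Function.Injective f := by
    intro b c h
    apply Subtype.ext
    rw [← hf b, ← hf c, h]
  have hcomp : ∀ {ι : Type} (g : ι → t), Function.Injective g →
      AlgebraicIndependent k (fun i => ((g i : t) : L)) := fun g hg => hb.1.comp g hg
  have hfin : Finite t := Finite.of_injective f hfinj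
  have : Fintype t := Fintype.ofFinite t
  have hcard2 : m ≤ Fintype.card t + 1 := by
    rw [← hcard, Cardinal.mk_fintype] at htr
    exact_mod_cast htr
  have hnsurj : ¬ Function.Surjective f := by
    intro hs
    choose g hg using hs
    have hginj : Function.Injective g := by
      intro i j h
      rw [← hg i, ← hg j, h]
    have h1 := hcomp g hginj
    have h2 : (fun i => ((g i : t) : L)) = ξ := by
      ext i
      rw [← hf (g i), hg i]
    rw [h2] at h1
    exact hF ((injective_iff_map_eq_zero _).1 h1 F h0)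
  have hex : ∃ i₀, ∀ b, f b ≠ i₀ := by
    by_contra hcon
    push Not at hcon
    exact hnsurj hcon
  obtain ⟨i₀, hi₀⟩ := hex
  refine ⟨i₀, ?_⟩
  let f' : t → {i // i ≠ i₀} := fun b => ⟨f b, hi₀ b⟩
  have hf'inj : Function.Injective f' := by
    intro b c h
    exact hfinj (congrArg Subtype.val h)
  have hsurj : Function.Surjective f' := by
    have hc : Fintype.card {i // i ≠ i₀} ≤ Fintype.card t := by
      rw [Fintype.card_subtype_compl, Fintype.card_fin, Fintype.card_subtype_eq]
      omega
    exact ((Fintype.bijective_iff_injective_and_card f').2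
      ⟨hf'inj, le_antisymm (Fintype.card_le_of_injective f' hf'inj) hc⟩).2
  choose g hg using hsurj
  have hginj : Function.Injective g := by
    intro i j h
    rw [← hg i, ← hg j, h]
  have h1 := hcomp g hginj
  have h2 : (fun i => ((g i : t) : L)) = fun i : {i // i ≠ i₀} => ξ i := by
    ext i
    rw [← hf (g i)]
    have h3 : f (g i) = (f' (g i)).1 := rfl
    rw [h3, hg i]
  rwa [h2] at h1

end Index

section Spec

variable {k : Type u} {K : Type v} {A : Type*} [Field k] [Field K] [Algebra k K] [CommRing A]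
  [IsDomain A] [Algebra k A] {m : ℕ}

/-- Specialization lemma: the relations of the generic point of a hypersurface lift. -/
theorem spec (π : A →ₐ[k] K) (𝒳 : Fin m → A) (F : MvPolynomial (Fin m) k) (hF : F ≠ 0)
    (h0 : MvPolynomial.aeval 𝒳 F = 0) (i₀ : Fin m)
    (hi : AlgebraicIndependent k (fun i : {i // i ≠ i₀} => π (𝒳 i)))
    (G : MvPolynomial (Fin m) k) (hG : MvPolynomial.aeval (fun i => π (𝒳 i)) G = 0) :
    MvPolynomial.aeval 𝒳 G = 0 := by
  classical
  by_contra hne
  let 𝒳' : {i : Fin m // i ≠ i₀} → A := fun i => 𝒳 i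
  have hind : AlgebraicIndependent k 𝒳' := AlgebraicIndependent.of_comp π hi
  let B := Algebra.adjoin k (Set.range 𝒳')
  have h1 : IsAlgebraic B (𝒳 i₀) := by
    by_contra htr
    have h2 := (hind.option_iff_transcendental (𝒳 i₀)).2 htr
    have h3 := h2.comp (Equiv.optionSubtypeNe i₀).symm (Equiv.injective _)
    have h4 : (fun o : Option {i : Fin m // i ≠ i₀} => o.elim (𝒳 i₀) 𝒳') ∘
        (Equiv.optionSubtypeNe i₀).symm = 𝒳 := by
      ext i
      by_cases hii : i = i₀
      · subst hii
        simp
      · simp [Equiv.optionSubtypeNe_symm_of_ne hii, 𝒳']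
    rw [h4] at h3
    exact hF ((injective_iff_map_eq_zero _).1 h3 F h0)
  have h2 : ∀ P : MvPolynomial (Fin m) k, IsAlgebraic B (MvPolynomial.aeval 𝒳 P) := by
    intro P
    induction P using MvPolynomial.induction_on with
    | C a =>
      rw [MvPolynomial.aeval_C]
      have h5 : algebraMap k A a = algebraMap B A (algebraMap k B a) := rfl
      rw [h5]
      exact isAlgebraic_algebraMap _
    | add p q hp hq =>
      rw [map_add]
      exact hp.add hq
    | mul_X p i hp =>
      rw [map_mul, MvPolynomial.aeval_X]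
      refine hp.mul ?_
      by_cases hii : i = i₀
      · subst hii
        exact h1
      · exact isAlgebraic_algebraMap (⟨𝒳 i, Algebra.subset_adjoin ⟨⟨i, hii⟩, rfl⟩⟩ : B)
  obtain ⟨q, hq0, hq⟩ := (h2 G).exists_nonzero_coeff_and_aeval_eq_zero
    (mem_nonZeroDivisors_of_ne_zero hne)
  have hπG : π (MvPolynomial.aeval 𝒳 G) = 0 := by
    rw [← hG, ← AlgHom.comp_apply, MvPolynomial.comp_aeval]
  have h3 : π ((q.coeff 0 : B) : A) = 0 := by
    have h4 := congrArg π hq
    rw [map_zero, Polynomial.aeval_eq_sum_range, map_sum, Finset.sum_range_succ'] at h4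
    rw [Finset.sum_eq_zero, zero_add, pow_zero] at h4
    · rw [Algebra.smul_def, mul_one] at h4
      exact h4
    · intro i _
      rw [Algebra.smul_def, map_mul, map_pow, hπG, pow_succ, mul_zero, mul_zero]
  obtain ⟨c, hc⟩ : ∃ c, MvPolynomial.aeval 𝒳' c = ((q.coeff 0 : B) : A) := by
    have h5 := (q.coeff 0).2
    have h6 := Algebra.adjoin_range_eq_range_aeval k 𝒳'
    have h7 : ((q.coeff 0 : B) : A) ∈ (MvPolynomial.aeval 𝒳' : _ →ₐ[k] A).range := h6 ▸ h5
    exact h7
  have h8 : MvPolynomial.aeval (fun i : {i : Fin m // i ≠ i₀} => π (𝒳 i)) c = 0 := by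
    have h9 : MvPolynomial.aeval (fun i : {i : Fin m // i ≠ i₀} => π (𝒳 i)) c =
        π (MvPolynomial.aeval 𝒳' c) := by
      rw [← AlgHom.comp_apply, MvPolynomial.comp_aeval]
    rw [h9, hc, h3]
  have h10 := (injective_iff_map_eq_zero _).1 hi c h8
  rw [h10, map_zero] at hc
  exact hq0 (Subtype.ext hc.symm)

end Spec

end Pool.Agent.UQ
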